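import Mathlib

set_option autoImplicit false
open MeasureTheory Set Filter Topology

namespace Pool.Agent.H.Flex

abbrev T := UnitAddCircle

theorem seq_zero (a b : ℕ → ℝ) (θ : ℝ) (h0 : 0 ≤ θ) (h1 : θ < 1) (ha : ∀ n, 0 ≤ a n)
    (hb : Tendsto b atTop (𝓝 0)) (h : ∀ n, a (n + 1) ≤ θ * a n + b n) :
    Tendsto a atTop (𝓝 0) := by
  rw [Metric.tendsto_atTop]
  intro ε hε
  obtain ⟨N, hN⟩ := (Metric.tendsto_atTop.1 hb) (ε / 2 * (1 - θ)) (by
    have : 0 < 1 - θ := by linarith
    positivity)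
  have key : ∀ j, a (N + j) ≤ ε / 2 + θ ^ j * a N := by
    intro j
    induction j with
    | zero => simp; linarith
    | succ j ih =>
      have h2 := h (N + j)
      have h3 := hN (N + j) (by omega)
      rw [Real.dist_eq, sub_zero] at h3
      have h4 := le_abs_self (b (N + j))
      have h5 := mul_le_mul_of_nonneg_left ih h0
      rw [show N + (j + 1) = N + j + 1 by ring, pow_succ]
      nlinarith
  have ht : Tendsto (fun j => θ ^ j * a N) atTop (𝓝 0) := by
    simpa using (tendsto_pow_atTop_nhds_zero_of_lt_one h0 h1).mul_const (a N)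
  obtain ⟨J, hJ⟩ := (Metric.tendsto_atTop.1 ht) (ε / 2) (by positivity)
  refine ⟨N + J, fun n hn => ?_⟩
  obtain ⟨j, rfl⟩ : ∃ j, n = N + j := ⟨n - N, by omega⟩
  have h6 := hJ j (by omega)
  rw [Real.dist_eq, sub_zero] at h6 ⊢
  have h7 := le_abs_self (θ ^ j * a N)
  rw [abs_of_nonneg (ha _)]
  linarith [key j]

theorem seq_dec (I v : ℕ → ℝ) (hI : ∀ n, 0 ≤ I n) (hv : ∀ n, 0 ≤ v n)
    (h : ∀ n, I (n + 1) ≤ I n - v n) : Tendsto v atTop (𝓝 0) := by
  have hanti : Antitone I := antitone_nat_of_succ_le fun n => by linarith [h n, hv n]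
  have hb : BddBelow (range I) := ⟨0, by rintro _ ⟨n, rfl⟩; exact hI n⟩
  have h1 := tendsto_atTop_ciInf hanti hb
  have h2 := (tendsto_add_atTop_iff_nat 1).2 h1
  have h3 := h1.sub h2
  rw [sub_self] at h3
  exact squeeze_zero hv (fun n => by linarith [h n]) h3

/-- representative in `[0,1)` -/
noncomputable def rep (x : T) : ℝ := (AddCircle.equivIco 1 0 x : ℝ)

theorem rep_meas : Measurable rep :=
  measurable_subtype_coe.comp (AddCircle.measurableEquivIco 1 0).measurable

theorem coe_rep (x : T) : ((rep x : ℝ) : T) = x := (AddCircle.equivIco 1 0).symm_apply_apply x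

theorem rep_mem (x : T) : rep x ∈ Ico (0 : ℝ) 1 := by
  simpa [rep] using (AddCircle.equivIco 1 0 x).2

theorem coe_int (x : ℝ) (k : ℤ) : ((x + k : ℝ) : T) = (x : T) := by
  have : ((k : ℝ) : T) = 0 := by
    rw [AddCircle.coe_eq_zero_iff]; exact ⟨k, by simp⟩
  rw [AddCircle.coe_add, this, add_zero]

theorem rep_coe (x : ℝ) : ∃ k : ℤ, rep (x : T) = x + k := by
  have h : ((rep (x : T) - x : ℝ) : T) = 0 := by rw [AddCircle.coe_sub, coe_rep, sub_self]
  rw [AddCircle.coe_eq_zero_iff] at h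
  obtain ⟨k, hk⟩ := h
  exact ⟨k, by simp at hk; linarith⟩

theorem meas_coe : Measurable (fun x : ℝ => (x : T)) :=
  (AddCircle.continuous_mk' (1 : ℝ)).measurable

theorem intT (φ : T → ℝ) : ∫ x, φ x = ∫ t in (0 : ℝ)..1, φ (t : T) := by
  rw [← UnitAddCircle.intervalIntegral_preimage 0 φ, zero_add]

theorem ii_of_bdd {χ : ℝ → ℝ} (hm : Measurable χ) {a b C : ℝ} (hab : a ≤ b)
    (hC : ∀ u ∈ Icc a b, |χ u| ≤ C) : IntervalIntegrable χ volume a b := by
  rw [intervalIntegrable_iff_integrableOn_Icc_of_le hab]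
  refine Measure.integrableOn_of_bounded (M := C) (by simp) hm.aestronglyMeasurable ?_
  exact (ae_restrict_iff' measurableSet_Icc).2 (Eventually.of_forall hC)

/-- change of variables under an increasing map -/
theorem cv {G p : ℝ → ℝ} (hG : ∀ u, HasDerivAt G (p u) u) (hp : ∀ u, 0 < p u) {a b : ℝ}
    (hab : a ≤ b) (g : ℝ → ℝ) :
    ∫ x in G a..G b, g x = ∫ u in a..b, p u * g (G u) := by
  have hm : StrictMono G := strictMono_of_deriv_pos fun u => by rw [(hG u).deriv]; exact hp u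
  have hc : Continuous G := continuous_iff_continuousAt.2 fun u => (hG u).continuousAt
  have h1 := integral_image_eq_integral_abs_deriv_smul (s := Icc a b) measurableSet_Icc
    (fun u _ => (hG u).hasDerivWithinAt) hm.injective.injOn g
  rw [hc.continuousOn.image_Icc_of_monotoneOn hab (hm.monotone.monotoneOn _)] at h1
  rw [intervalIntegral.integral_of_le (hm.monotone hab), intervalIntegral.integral_of_le hab,
    ← integral_Icc_eq_integral_Ioc, ← integral_Icc_eq_integral_Ioc, h1]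
  congr 1
  ext u
  rw [abs_of_pos (hp u), smul_eq_mul]

structure Br where
  p : ℝ → ℝ
  sm : ContDiff ℝ (⊤ : ℕ∞) p
  per : ∀ u, p (u + 1) = 1 - p u
  pos : ∀ u, 0 < p u

namespace Br
variable (B : Br)

theorem cp : Continuous B.p := B.sm.continuous

theorem lt1 (u : ℝ) : B.p u < 1 := by
  have := B.pos (u + 1); rw [B.per] at this; linarith

theorem per2 : Function.Periodic B.p 2 := fun u => by
  rw [show u + 2 = u + 1 + 1 by ring, B.per, B.per]; ring

noncomputable def G (u : ℝ) : ℝ := ∫ t in (0 : ℝ)..u, B.p t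

theorem hG (u : ℝ) : HasDerivAt B.G (B.p u) u :=
  (B.cp.integral_hasStrictDerivAt 0 u).hasDerivAt

theorem G_sm : ContDiff ℝ (⊤ : ℕ∞) B.G := by
  rw [contDiff_infty_iff_deriv]
  refine ⟨fun u => (B.hG u).differentiableAt, ?_⟩
  have : deriv B.G = B.p := funext fun u => (B.hG u).deriv
  rw [this]; exact B.sm

theorem cG : Continuous B.G := B.G_sm.continuous

theorem G0 : B.G 0 = 0 := by simp [G]

theorem G_two (u : ℝ) : B.G (u + 2) = B.G u + 1 := by
  have hd : ∀ v, HasDerivAt (fun v => B.G (v + 1) + B.G v - v) 0 v := by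
    intro v
    have := ((B.hG (v + 1)).comp_add_const v 1 |>.add (B.hG v)).sub (hasDerivAt_id v)
    rw [B.per] at this
    exact this.congr_deriv (by ring)
  have := is_const_of_deriv_eq_zero (fun v => (hd v).differentiableAt) (fun v => (hd v).deriv)
    (u + 1) u
  rw [show u + 1 + 1 = u + 2 by ring] at this
  linarith

theorem G_int (u : ℝ) (k : ℤ) : B.G (u + 2 * k) = B.G u + k := by
  have h : Function.Periodic (fun u => B.G u - u / 2) 2 := fun u => by
    simp only; rw [B.G_two]; ring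
  have : B.G (u + k * 2) - (u + k * 2) / 2 = B.G u - u / 2 := (h.int_mul k) u
  rw [mul_comm] at this
  linarith

theorem G2 : B.G 2 = 1 := by simpa [B.G0] using B.G_two 0

theorem Gmono : StrictMono B.G :=
  strictMono_of_deriv_pos fun u => by rw [(B.hG u).deriv]; exact B.pos u

theorem Gsurj : Function.Surjective B.G := by
  intro x
  have h : x - ⌊x⌋ ∈ Icc (B.G 0) (B.G 2) := by
    rw [B.G0, B.G2]
    exact ⟨by linarith [Int.floor_le x], by linarith [Int.lt_floor_add_one x]⟩
  obtain ⟨u, -, hu⟩ := intermediate_value_Icc (by norm_num) B.cG.continuousOn h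
  exact ⟨u + 2 * ⌊x⌋, by rw [B.G_int, hu]; ring⟩

noncomputable def E : ℝ → ℝ := (B.Gmono.orderIsoOfSurjective B.G B.Gsurj).symm

theorem GE (x : ℝ) : B.G (B.E x) = x :=
  (B.Gmono.orderIsoOfSurjective B.G B.Gsurj).apply_symm_apply x

theorem EG (u : ℝ) : B.E (B.G u) = u :=
  (B.Gmono.orderIsoOfSurjective B.G B.Gsurj).symm_apply_apply u

theorem cE : Continuous B.E := (B.Gmono.orderIsoOfSurjective B.G B.Gsurj).symm.continuous

theorem E_int (x : ℝ) (k : ℤ) : B.E (x + k) = B.E x + 2 * k := by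
  apply B.Gmono.injective
  rw [B.G_int, B.GE, B.GE]

theorem G_mem {u : ℝ} (hu : u ∈ Icc (0 : ℝ) 2) : B.G u ∈ Icc (0 : ℝ) 1 :=
  ⟨by rw [← B.G0]; exact B.Gmono.monotone hu.1, by rw [← B.G2]; exact B.Gmono.monotone hu.2⟩

noncomputable def e (x : T) : T := (B.E (rep x) : ℝ)

theorem e_meas : Measurable B.e := meas_coe.comp (B.cE.measurable.comp rep_meas)

theorem e_coe (x : ℝ) : B.e (x : T) = (B.E x : ℝ) := by
  obtain ⟨k, hk⟩ := rep_coe x
  rw [e, hk, B.E_int, show (2 * k : ℝ) = ((2 * k : ℤ) : ℝ) by push_cast; ring, coe_int]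

/-- the basic duality -/
theorem dual {χ : ℝ → ℝ} (hm : Measurable χ) {C : ℝ} (hC : ∀ u ∈ Icc (0 : ℝ) 2, |χ u| ≤ C) :
    ∫ x in (0 : ℝ)..1, χ (B.E x) =
      ∫ u in (0 : ℝ)..1, (B.p u * χ u + B.p (u + 1) * χ (u + 1)) := by
  have h1 := cv B.hG B.pos (a := 0) (b := 2) (by norm_num) (fun x => χ (B.E x))
  rw [B.G0, B.G2] at h1
  simp only [B.EG] at h1
  have hb : ∀ u ∈ Icc (0 : ℝ) 2, |B.p u * χ u| ≤ C := fun u hu => by
    rw [abs_mul, abs_of_pos (B.pos u)]
    have := hC u hu
    nlinarith [B.pos u, B.lt1 u, abs_nonneg (χ u)]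
  have hm2 : Measurable fun u => B.p u * χ u := B.cp.measurable.mul hm
  have i1 := ii_of_bdd hm2 (a := 0) (b := 1) (by norm_num)
    (fun u hu => hb u ⟨hu.1, by linarith [hu.2]⟩)
  have i2 := ii_of_bdd hm2 (a := 1) (b := 2) (by norm_num)
    (fun u hu => hb u ⟨by linarith [hu.1], hu.2⟩)
  have i3 := ii_of_bdd (χ := fun u => B.p (u + 1) * χ (u + 1))
    (hm2.comp (measurable_add_const 1)) (a := 0) (b := 1) (by norm_num)
    (fun u hu => hb (u + 1) ⟨by linarith [hu.1], by linarith [hu.2]⟩)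
  rw [h1, ← intervalIntegral.integral_add_adjacent_intervals i1 i2,
    intervalIntegral.integral_add i1 i3,
    intervalIntegral.integral_comp_add_right (fun u => B.p u * χ u) 1]
  norm_num

noncomputable def L (w : ℝ → ℝ) (u : ℝ) : ℝ :=
  B.p u * w (B.G u) + B.p (u + 1) * w (B.G (u + 1))

theorem L_cont {w : ℝ → ℝ} (hw : Continuous w) : Continuous (B.L w) := by
  have := B.cp; have := B.cG
  unfold L; fun_prop

theorem Ln_cont {w : ℝ → ℝ} (hw : Continuous w) (n : ℕ) : Continuous (B.L^[n] w) := by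
  induction n with
  | zero => exact hw
  | succ n ih => rw [Function.iterate_succ_apply']; exact B.L_cont ih

theorem dual1 {φ : T → ℝ} (hm : Measurable φ) {C : ℝ} (hC : ∀ x, |φ x| ≤ C) {w : ℝ → ℝ}
    (hw : Continuous w) :
    ∫ x in (0 : ℝ)..1, φ (B.e (x : T)) * w x = ∫ u in (0 : ℝ)..1, φ (u : T) * B.L w u := by
  obtain ⟨M, hM⟩ := (isCompact_Icc (a := (0 : ℝ)) (b := 1)).exists_bound_of_continuousOn
    hw.continuousOn
  have := B.dual (χ := fun u => φ (u : T) * w (B.G u))
    ((hm.comp meas_coe).mul (hw.comp B.cG).measurable) (C := C * M) (fun u hu => by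
      rw [abs_mul]
      exact mul_le_mul (hC _) (hM _ (B.G_mem hu)) (abs_nonneg _) ((abs_nonneg _).trans (hC 0)))
  simp only [B.GE] at this
  simp only [B.e_coe]
  rw [this]
  congr 1
  ext u
  have h1 := coe_int u 1
  push_cast at h1
  rw [show ((u + 1 : ℝ) : T) = (u : T) from by simpa using coe_int u 1, L]
  ring

theorem dualn (n : ℕ) {φ : T → ℝ} (hm : Measurable φ) {C : ℝ} (hC : ∀ x, |φ x| ≤ C)
    {w : ℝ → ℝ} (hw : Continuous w) :
    ∫ x in (0 : ℝ)..1, φ (B.e^[n] (x : T)) * w x =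
      ∫ u in (0 : ℝ)..1, φ (u : T) * B.L^[n] w u := by
  induction n generalizing w with
  | zero => rfl
  | succ n ih =>
    simp only [Function.iterate_succ_apply]
    rw [B.dual1 (φ := fun x => φ (B.e^[n] x)) (hm.comp (B.e_meas.iterate n)) (fun x => hC _) hw,
      ih (B.L_cont hw)]

theorem intL {w : ℝ → ℝ} (hw : Continuous w) :
    ∫ u in (0 : ℝ)..1, B.L w u = ∫ u in (0 : ℝ)..1, w u := by
  have := B.dual1 (φ := fun _ => 1) measurable_const (C := 1) (by simp) hw
  simpa using this.symm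

theorem int_e {φ : T → ℝ} (hm : Measurable φ) {C : ℝ} (hC : ∀ x, |φ x| ≤ C) :
    ∫ x, φ (B.e x) = ∫ x, φ x := by
  have := B.dual1 hm hC (w := fun _ => 1) continuous_const
  rw [intT, intT]
  simpa [L, B.per] using this

theorem e_mp : MeasurePreserving B.e volume volume := by
  refine ⟨B.e_meas, Measure.ext fun A hA => ?_⟩
  rw [Measure.map_apply B.e_meas hA]
  have := B.int_e (φ := A.indicator 1) (measurable_one.indicator hA) (C := 1)
    (fun x => by by_cases h : x ∈ A <;> simp [h])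
  rw [integral_indicator_one hA] at this
  have h2 : (fun x => A.indicator (1 : T → ℝ) (B.e x)) = (B.e ⁻¹' A).indicator 1 := by
    ext x; by_cases h : B.e x ∈ A <;> simp [h]
  rw [h2, integral_indicator_one (B.e_meas hA)] at this
  exact (ENNReal.toReal_eq_toReal_iff' (measure_ne_top _ _) (measure_ne_top _ _)).1 this

end Br
end Pool.Agent.H.Flex
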