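import Mathlib
import Pool.Agent.H.MP_0e2194_an.Base

set_option autoImplicit false
open MeasureTheory Set Filter Topology

namespace Pool.Agent.H.Flex

theorem per_bdd {f : ℝ → ℝ} (hc : Continuous f) {c : ℝ} (hc0 : 0 < c) (hp : Function.Periodic f c) :
    (∃ x, ∀ y, f y ≤ f x) ∧ (∃ x, ∀ y, f x ≤ f y) := by
  obtain ⟨x, -, hx⟩ := (isCompact_Icc (a := (0 : ℝ)) (b := c)).exists_isMaxOn
    (nonempty_Icc.2 hc0.le) hc.continuousOn
  obtain ⟨x', -, hx'⟩ := (isCompact_Icc (a := (0 : ℝ)) (b := c)).exists_isMinOn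
    (nonempty_Icc.2 hc0.le) hc.continuousOn
  refine ⟨⟨x, fun y => ?_⟩, ⟨x', fun y => ?_⟩⟩
  · obtain ⟨z, hz, h⟩ := hp.exists_mem_Ico₀ hc0 y
    rw [h]; exact hx (Ico_subset_Icc_self hz)
  · obtain ⟨z, hz, h⟩ := hp.exists_mem_Ico₀ hc0 y
    rw [h]; exact hx' (Ico_subset_Icc_self hz)

namespace Br
variable (B : Br)

theorem ex_theta : ∃ θ : ℝ, 0 < θ ∧ θ < 1 ∧ ∀ u, B.p u ≤ θ ∧ 1 - θ ≤ B.p u := by
  obtain ⟨⟨x, hx⟩, -⟩ := per_bdd B.cp two_pos B.per2
  refine ⟨B.p x, B.pos x, B.lt1 x, fun u => ⟨hx u, ?_⟩⟩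
  have := hx (u + 1); rw [B.per] at this; linarith

theorem hp (u : ℝ) : HasDerivAt B.p (deriv B.p u) u :=
  (B.sm.differentiable (by simp) u).hasDerivAt

theorem cdp : Continuous (deriv B.p) := B.sm.continuous_deriv (by simp)

theorem dper (u : ℝ) : deriv B.p (u + 1) = - deriv B.p u := by
  have h1 := (B.hp (u + 1)).comp_add_const u 1
  have h2 : (fun x => B.p (x + 1)) = fun x => 1 - B.p x := funext B.per
  rw [h2] at h1
  exact h1.unique ((B.hp u).const_sub 1)

noncomputable def D (w : ℝ → ℝ) (u : ℝ) : ℝ := w (B.G u) - w (B.G (u + 1))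

theorem D_cont {w : ℝ → ℝ} (hw : Continuous w) : Continuous (B.D w) := by
  have := B.cG
  unfold D; fun_prop

theorem L_deriv {w w' : ℝ → ℝ} (hw : ∀ u, HasDerivAt w (w' u) u) (u : ℝ) :
    HasDerivAt (B.L w) (deriv B.p u * B.D w u + B.p u ^ 2 * w' (B.G u)
      + B.p (u + 1) ^ 2 * w' (B.G (u + 1))) u := by
  have h1 := (B.hp u).mul ((hw (B.G u)).comp u (B.hG u))
  have h2 := ((B.hp (u + 1)).mul ((hw (B.G (u + 1))).comp (u + 1) (B.hG (u + 1)))).comp_add_const u 1
  have h3 := h1.add h2
  refine HasDerivAt.congr_deriv h3 ?_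
  simp only [Function.comp, D, B.dper]
  ring

theorem Ln_deriv {w : ℝ → ℝ} (hw : ContDiff ℝ 1 w) (n : ℕ) : ContDiff ℝ 1 (B.L^[n] w) := by
  induction n with
  | zero => exact hw
  | succ n ih =>
    rw [Function.iterate_succ_apply']
    have h1 : ContDiff ℝ 1 B.p := B.sm.of_le (by simp)
    have h2 : ContDiff ℝ 1 B.G := B.G_sm.of_le (by simp)
    unfold L
    fun_prop

theorem D_sq {w : ℝ → ℝ} (hw : Continuous w) :
    Tendsto (fun n => ∫ u in (0 : ℝ)..1, B.D (B.L^[n] w) u ^ 2) atTop (𝓝 0) := by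
  obtain ⟨θ, h0, h1, hθ⟩ := B.ex_theta
  have hk : 0 < (1 - θ) ^ 2 := by have : 0 < 1 - θ := by linarith
                                  positivity
  have := seq_dec (fun n => ∫ u in (0 : ℝ)..1, (B.L^[n] w) u ^ 2)
    (fun n => (1 - θ) ^ 2 * ∫ u in (0 : ℝ)..1, B.D (B.L^[n] w) u ^ 2)
    (fun n => intervalIntegral.integral_nonneg zero_le_one fun u _ => sq_nonneg _)
    (fun n => mul_nonneg hk.le
      (intervalIntegral.integral_nonneg zero_le_one fun u _ => sq_nonneg _))
    (fun n => by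
      simp only [Function.iterate_succ_apply']
      have hc := B.Ln_cont hw n
      generalize B.L^[n] w = v at hc
      have hc2 : Continuous fun u => v u ^ 2 := by fun_prop
      have hL := B.L_cont hc
      have hL2 := B.L_cont hc2
      have hD := B.D_cont hc
      rw [← B.intL hc2, ← intervalIntegral.integral_const_mul, ← intervalIntegral.integral_sub
        (hL2.intervalIntegrable _ _) ((by fun_prop : Continuous _).intervalIntegrable _ _)]
      refine intervalIntegral.integral_mono_on zero_le_one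
        ((by fun_prop : Continuous _).intervalIntegrable _ _)
        ((by fun_prop : Continuous _).intervalIntegrable _ _) fun u _ => ?_
      simp only [L, D, B.per]
      have a1 := (hθ u).1
      have a2 := (hθ u).2
      have a3 : (1 - θ) ^ 2 ≤ B.p u * (1 - B.p u) := by nlinarith
      nlinarith [mul_le_mul_of_nonneg_right a3 (sq_nonneg (v (B.G u) - v (B.G (u + 1))))])
  have h2 := this.const_mul ((1 - θ) ^ 2)⁻¹
  simp only [← mul_assoc, inv_mul_cancel₀ hk.ne', one_mul, mul_zero] at h2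
  exact h2

theorem D_abs {w : ℝ → ℝ} (hw : Continuous w) :
    Tendsto (fun n => ∫ u in (0 : ℝ)..1, |B.D (B.L^[n] w) u|) atTop (𝓝 0) := by
  rw [Metric.tendsto_atTop]
  intro ε hε
  obtain ⟨N, hN⟩ := (Metric.tendsto_atTop.1 (B.D_sq hw)) (ε / 2 * (ε / 2)) (by positivity)
  refine ⟨N, fun n hn => ?_⟩
  have h := hN n hn
  have hD := B.D_cont (B.Ln_cont hw n)
  generalize B.D (B.L^[n] w) = d at hD h
  rw [Real.dist_eq, sub_zero, abs_of_nonneg
    (intervalIntegral.integral_nonneg zero_le_one fun u _ => by positivity)] at h ⊢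
  have h1 : ∫ u in (0 : ℝ)..1, |d u| ≤ ∫ u in (0 : ℝ)..1, (ε / 2 + (ε / 2)⁻¹ * d u ^ 2) := by
    refine intervalIntegral.integral_mono_on zero_le_one
      ((by fun_prop : Continuous _).intervalIntegrable _ _)
      ((by fun_prop : Continuous _).intervalIntegrable _ _) fun u _ => ?_
    have e1 : 0 < ε / 2 := by positivity
    rw [← sq_abs, ← sub_nonneg]
    have : ε / 2 + (ε / 2)⁻¹ * |d u| ^ 2 - |d u| =
        (ε / 2)⁻¹ * ((|d u| - ε / 4) ^ 2 + 3 * (ε / 4) ^ 2) := by field_simp; ring
    rw [this]; positivity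
  rw [intervalIntegral.integral_add (by simp)
    ((by fun_prop : Continuous _).intervalIntegrable _ _), intervalIntegral.integral_const_mul] at h1
  simp only [intervalIntegral.integral_const, sub_zero, smul_eq_mul, one_mul] at h1
  have h2 : (ε / 2)⁻¹ * ∫ u in (0 : ℝ)..1, d u ^ 2 < ε / 2 := by
    rw [inv_mul_lt_iff₀ (by positivity)]; exact h
  linarith

theorem V_zero {w : ℝ → ℝ} (hw : ContDiff ℝ 1 w) :
    Tendsto (fun n => ∫ u in (0 : ℝ)..1, |deriv (B.L^[n] w) u|) atTop (𝓝 0) := by
  obtain ⟨θ, h0, h1, hθ⟩ := B.ex_theta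
  obtain ⟨C, hC⟩ := (isCompact_Icc (a := (0 : ℝ)) (b := 1)).exists_bound_of_continuousOn
    B.cdp.continuousOn
  refine seq_zero _ (fun n => C * ∫ u in (0 : ℝ)..1, |B.D (B.L^[n] w) u|) θ h0.le h1
    (fun n => intervalIntegral.integral_nonneg zero_le_one fun u _ => abs_nonneg _)
    (by simpa using (B.D_abs hw.continuous).const_mul C) fun n => ?_
  have hc1 := B.Ln_deriv hw (n + 1)
  simp only [Function.iterate_succ_apply'] at hc1 ⊢
  have hc := B.Ln_deriv hw n
  generalize B.L^[n] w = v at hc hc1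
  have hd : Continuous (deriv v) := hc.continuous_deriv le_rfl
  have hd1 : Continuous (deriv (B.L v)) := hc1.continuous_deriv le_rfl
  have ha : Continuous fun u => |deriv v u| := hd.abs
  have hL := B.L_cont ha
  have hD := B.D_cont hc.continuous
  rw [← B.intL ha, ← intervalIntegral.integral_const_mul, ← intervalIntegral.integral_const_mul,
    ← intervalIntegral.integral_add ((by fun_prop : Continuous _).intervalIntegrable _ _)
      ((by fun_prop : Continuous _).intervalIntegrable _ _)]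
  refine intervalIntegral.integral_mono_on zero_le_one
    ((by fun_prop : Continuous _).intervalIntegrable _ _)
    ((by fun_prop : Continuous _).intervalIntegrable _ _) fun u hu => ?_
  rw [(B.L_deriv (fun u => (hc.differentiable one_ne_zero u).hasDerivAt) u).deriv]
  refine (abs_add_three _ _ _).trans ?_
  have b1 : |deriv B.p u * B.D v u| ≤ C * |B.D v u| := by
    rw [abs_mul]; exact mul_le_mul_of_nonneg_right (hC u hu) (abs_nonneg _)
  have b2 : ∀ t, |B.p t ^ 2 * deriv v (B.G t)| ≤ θ * (B.p t * |deriv v (B.G t)|) := fun t => by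
    rw [abs_mul, abs_of_nonneg (sq_nonneg _), sq, mul_assoc]
    exact mul_le_mul_of_nonneg_right (hθ t).1 (mul_nonneg (B.pos t).le (abs_nonneg _))
  have := b2 u
  have := b2 (u + 1)
  simp only [L]
  linarith

theorem exact {w : ℝ → ℝ} (hw : ContDiff ℝ 1 w) (h0 : ∫ u in (0 : ℝ)..1, w u = 0) {ε : ℝ}
    (hε : 0 < ε) : ∀ᶠ n in atTop, ∀ u ∈ Icc (0 : ℝ) 1, |B.L^[n] w u| ≤ ε := by
  filter_upwards [(B.V_zero hw).eventually (gt_mem_nhds hε)] with n hn u hu
  have hi : ∫ u in (0 : ℝ)..1, B.L^[n] w u = 0 := by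
    clear hn
    induction n with
    | zero => exact h0
    | succ n ih => rw [Function.iterate_succ_apply', B.intL (B.Ln_cont hw.continuous n), ih]
  have hc := B.Ln_deriv hw n
  generalize B.L^[n] w = v at hc hn hi
  have hd : Continuous (deriv v) := hc.continuous_deriv le_rfl
  have key : ∀ s ∈ Icc (0 : ℝ) 1, ∀ t ∈ Icc (0 : ℝ) 1, s ≤ t → |v t - v s| ≤ ε := by
    intro s hs t ht hst
    rw [← intervalIntegral.integral_deriv_eq_sub (fun x _ => hc.differentiable one_ne_zero x)
      (hd.intervalIntegrable _ _)]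
    refine (intervalIntegral.abs_integral_le_integral_abs hst).trans (le_trans ?_ hn.le)
    exact intervalIntegral.integral_mono_interval hs.1 hst ht.2
      (Eventually.of_forall fun x => abs_nonneg _) (hd.abs.intervalIntegrable _ _)
  have h2 : ∫ t in (0 : ℝ)..1, (v u - v t) = v u := by
    rw [intervalIntegral.integral_sub (by simp) (hc.continuous.intervalIntegrable _ _), hi]; simp
  have h3 := intervalIntegral.norm_integral_le_of_norm_le_const (a := (0 : ℝ)) (b := 1) (C := ε)
    (f := fun t => v u - v t) (fun t ht => by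
      rw [uIoc_of_le zero_le_one] at ht
      rcases le_total t u with h | h
      · exact key t (Ioc_subset_Icc_self ht) u hu h
      · rw [Real.norm_eq_abs, abs_sub_comm]; exact key u hu t (Ioc_subset_Icc_self ht) h)
  rw [h2] at h3
  simpa using h3

end Br

theorem ae_T {P : T → Prop} (h : ∀ᵐ x : ℝ, x ∈ Ioo (0 : ℝ) 1 → P (x : T)) : ∀ᵐ x : T, P x := by
  have h1 : MeasurePreserving rep (volume : Measure T) (volume.restrict (Ioc (0 : ℝ) 1)) := by
    refine ⟨rep_meas, ?_⟩
    have h2 := UnitAddCircle.measurePreserving_mk 0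
    rw [zero_add] at h2
    rw [← h2.map_eq, Measure.map_map rep_meas meas_coe]
    conv_rhs => rw [← Measure.map_id (μ := volume.restrict (Ioc (0 : ℝ) 1))]
    refine Measure.map_congr ?_
    rw [← restrict_Ioo_eq_restrict_Ioc]
    refine (ae_restrict_iff' measurableSet_Ioo).2 (Eventually.of_forall fun x hx => ?_)
    obtain ⟨k, hk⟩ := rep_coe x
    have h3 := rep_mem (x : T)
    rw [hk] at h3
    have h4 : (k : ℝ) < 1 := by linarith [h3.2, hx.1]
    have h5 : (-1 : ℝ) < k := by linarith [h3.1, hx.2]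
    have h6 : k = 0 := by
      have : k < 1 := by exact_mod_cast h4
      have : -1 < k := by exact_mod_cast h5
      omega
    simp [hk, h6]
  have h2 : ∀ᵐ x : ℝ ∂(volume.restrict (Ioc (0 : ℝ) 1)), P (x : T) := by
    rw [← restrict_Ioo_eq_restrict_Ioc]
    exact (ae_restrict_iff' measurableSet_Ioo).2 h
  filter_upwards [h1.quasiMeasurePreserving.ae h2] with x hx
  rwa [coe_rep] at hx

theorem Br.tail (B : Br) {φ : T → ℝ}
    (h : ∀ N, ∃ n ≥ N, ∃ ψ : T → ℝ, Measurable ψ ∧ (∀ x, |ψ x| ≤ 1) ∧ ∀ x, φ x = ψ (B.e^[n] x)) :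
    ∀ᵐ x : T, φ x = ∫ x, φ x := by
  have hm : Measurable φ ∧ ∀ x, |φ x| ≤ 1 := by
    obtain ⟨n, -, ψ, h1, h2, h3⟩ := h 0
    rw [show φ = fun x => ψ (B.e^[n] x) from funext h3]
    exact ⟨h1.comp (B.e_meas.iterate n), fun x => h2 _⟩
  have key : ∀ w : ℝ → ℝ, ContDiff ℝ 1 w → ∫ u in (0 : ℝ)..1, w u = 0 →
      ∫ u in (0 : ℝ)..1, φ (u : T) * w u = 0 := by
    intro w hw h0
    refine abs_nonpos_iff.1 (le_of_forall_pos_le_add fun ε hε => ?_)
    obtain ⟨N, hN⟩ := eventually_atTop.1 (B.exact hw h0 hε)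
    obtain ⟨n, hn, ψ, h1, h2, h3⟩ := h N
    simp only [h3]
    rw [B.dualn n h1 h2 hw.continuous]
    have := intervalIntegral.norm_integral_le_of_norm_le_const (a := (0 : ℝ)) (b := 1) (C := ε)
      (f := fun u => ψ (u : T) * B.L^[n] w u) (fun t ht => by
        rw [uIoc_of_le zero_le_one] at ht
        rw [Real.norm_eq_abs, abs_mul]
        have := hN n hn t (Ioc_subset_Icc_self ht)
        nlinarith [h2 (t : T), abs_nonneg (ψ (t : T)), abs_nonneg (B.L^[n] w t)])
    simpa using this
  set c := ∫ x, φ x with hc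
  have hm2 : Measurable fun u : ℝ => φ (u : T) := hm.1.comp meas_coe
  have hloc : LocallyIntegrableOn (fun u : ℝ => φ (u : T) - c) (Ioo 0 1) volume := by
    refine IntegrableOn.locallyIntegrableOn ?_
    refine Measure.integrableOn_of_bounded (M := 1 + |c|) (by simp)
      (hm2.sub_const c).aestronglyMeasurable (Eventually.of_forall fun u => ?_)
    rw [Real.norm_eq_abs]
    exact (abs_sub _ _).trans (by linarith [hm.2 (u : T)])
  have := isOpen_Ioo.ae_eq_zero_of_integral_contDiff_smul_eq_zero hloc (fun g hg _ hs => by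
    have hg1 : ContDiff ℝ 1 g := hg.of_le (by simp)
    have hgc := hg1.continuous
    have k1 := key (fun u => g u - ∫ t in (0 : ℝ)..1, g t) (hg1.sub contDiff_const) (by
      rw [intervalIntegral.integral_sub (hgc.intervalIntegrable _ _) (by simp)]; simp)
    have i1 : IntervalIntegrable (fun u : ℝ => φ (u : T)) volume 0 1 :=
      ii_of_bdd hm2 zero_le_one (C := 1) fun u _ => hm.2 _
    have i2 := i1.mul_continuousOn hgc.continuousOn
    simp only [mul_sub] at k1
    rw [intervalIntegral.integral_sub i2 (i1.mul_const _), intervalIntegral.integral_mul_const,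
      ← intT, ← hc] at k1
    rw [← intervalIntegral.integral_eq_integral_of_support_subset (a := 0) (b := 1)]
    · simp only [smul_eq_mul, sub_mul, mul_comm (g _)]
      rw [intervalIntegral.integral_sub i2 ((by fun_prop : Continuous _).intervalIntegrable _ _),
        intervalIntegral.integral_const_mul]
      exact k1
    · intro x hx
      refine Ioo_subset_Ioc_self (hs (subset_tsupport _ fun h0 => hx ?_))
      simp [h0])
  refine ae_T ?_
  filter_upwards [this] with x hx hx'
  linarith [hx hx']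

theorem ec_of_ind {X : Type*} {l : Filter X} {A : Set X} {c : ℝ}
    (h : ∀ᶠ x in l, A.indicator (1 : X → ℝ) x = c) : EventuallyConst A l := by
  rw [eventuallyConst_set]
  by_cases hc : c = 1
  · left; filter_upwards [h] with x hx
    by_contra h2; simp [h2, hc] at hx
  · right; filter_upwards [h] with x hx h2
    simp [h2] at hx; exact hc hx.symm

theorem ind_abs {X : Type*} (A : Set X) (x : X) : |A.indicator (1 : X → ℝ) x| ≤ 1 := by
  by_cases h : x ∈ A <;> simp [h]

theorem Br.e_erg (B : Br) {m : ℕ} (hm : 0 < m) : Ergodic (B.e^[m]) volume := by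
  refine ⟨B.e_mp.iterate m, ⟨fun A hA hi => ?_⟩⟩
  refine ec_of_ind (B.tail fun N => ⟨m * N, by nlinarith, A.indicator 1,
    measurable_one.indicator hA, ind_abs A, fun x => ?_⟩)
  have : (B.e^[m * N]) ⁻¹' A = A := by
    rw [Function.iterate_mul]; exact Function.IsFixedPt.preimage_iterate hi N
  have h2 : x ∈ A ↔ B.e^[m * N] x ∈ A := by
    conv_lhs => rw [← this]
    rfl
  by_cases h : x ∈ A
  · simp [h, h2.1 h]
  · simp [h, mt h2.2 h]

theorem Br.prod_erg (B : Br) {m : ℕ} (hm : 0 < m) {S : T → T} (hS : Ergodic S volume) :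
    Ergodic (Prod.map (B.e^[m]) S) (volume : Measure (T × T)) := by
  refine ⟨(B.e_mp.iterate m).prod hS.toMeasurePreserving, ⟨fun A hA hi => ?_⟩⟩
  set φ : T × T → ℝ := A.indicator 1 with hφ
  have hφm : Measurable φ := measurable_one.indicator hA
  have inv : ∀ k x y, φ (x, y) = φ (B.e^[m * k] x, S^[k] y) := by
    intro k x y
    have : (Prod.map (B.e^[m]) S)^[k] ⁻¹' A = A := Function.IsFixedPt.preimage_iterate hi k
    have h2 : (x, y) ∈ A ↔ (B.e^[m * k] x, S^[k] y) ∈ A := by
      conv_lhs => rw [← this]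
      rw [mem_preimage, Prod.map_iterate, Function.iterate_mul]; rfl
    by_cases h : (x, y) ∈ A
    · simp [hφ, h, h2.1 h]
    · simp [hφ, h, mt h2.2 h]
  have h1 : ∀ y, ∀ᵐ x : T, φ (x, y) = ∫ x, φ (x, y) := fun y =>
    B.tail (φ := fun x => φ (x, y)) fun N => ⟨m * N, by nlinarith, fun x => φ (x, S^[N] y),
      hφm.comp measurable_prodMk_right, fun x => ind_abs A _, fun x => inv N x y⟩
  have h2 : StronglyMeasurable fun y => ∫ x, φ (x, y) :=
    hφm.stronglyMeasurable.integral_prod_left'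
  obtain ⟨c, hc⟩ := hS.ae_eq_const_of_ae_eq_comp_ae h2.aestronglyMeasurable
    (Eventually.of_forall fun y => by
      have h3 := integral_map (μ := (volume : Measure T)) (φ := B.e^[m])
        (f := fun x => φ (x, S y)) (B.e_meas.iterate m).aemeasurable
        (hφm.comp measurable_prodMk_right).aestronglyMeasurable
      rw [(B.e_mp.iterate m).map_eq] at h3
      simp only [Function.comp]
      rw [h3]
      congr 1
      ext x
      simpa using (inv 1 x y).symm)
  refine ec_of_ind (c := c) ?_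
  have hs : MeasurableSet {z : T × T | φ z = c} := hφm (measurableSet_singleton c)
  refine (Measure.ae_prod_iff_ae_ae hs).2 ?_
  refine (Measure.ae_ae_comm (p := fun x y => φ (x, y) = c) hs).2 ?_
  filter_upwards [hc] with y hy
  filter_upwards [h1 y] with x hx
  rw [hx]; exact hy

end Pool.Agent.H.Flex
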