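import Mathlib
import Pool.Agent.H.MP_0e2194_an.Exact
import Pool.Agent.Lib.helper9.Birkhoff

set_option autoImplicit false
open MeasureTheory Set Filter Topology

namespace Pool.Agent.H.Flex

def Goal (L S : ℝ) : Prop :=
    ∃ (f : (Fin 2 → UnitAddCircle) → (Fin 2 → UnitAddCircle))
      (F : (Fin 2 → ℝ) → (Fin 2 → ℝ)),
      ContDiff ℝ (⊤ : ℕ∞) F ∧
      (∀ x : Fin 2 → ℝ,
        f (fun i => ((x i : ℝ) : UnitAddCircle)) = fun i => ((F x i : ℝ) : UnitAddCircle)) ∧
      MeasureTheory.MeasurePreserving f MeasureTheory.volume MeasureTheory.volume ∧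
      Ergodic f MeasureTheory.volume ∧
      ∀ᵐ x ∂(MeasureTheory.volume : MeasureTheory.Measure (Fin 2 → ℝ)),
        Filter.Tendsto (fun n : ℕ => (1 / (n : ℝ)) * Real.log ‖fderiv ℝ (F^[n]) x‖)
          Filter.atTop (nhds L) ∧
        Filter.Tendsto (fun n : ℕ => (1 / (n : ℝ)) * Real.log |(fderiv ℝ (F^[n]) x).det|)
          Filter.atTop (nhds S)

theorem lin_bound {u : ℕ → ℝ} {α : ℝ} (h : Tendsto (fun n : ℕ => (1 / (n : ℝ)) * u n) atTop (𝓝 α))
    {ε : ℝ} (hε : 0 < ε) : ∃ C, 0 ≤ C ∧ ∀ n : ℕ, |u n - n * α| ≤ ε * n + C := by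
  obtain ⟨N, hN⟩ := (Metric.tendsto_atTop.1 h) ε hε
  refine ⟨∑ k ∈ Finset.range (N + 1), |u k - k * α|,
    Finset.sum_nonneg fun _ _ => abs_nonneg _, fun n => ?_⟩
  by_cases hn : n < N + 1
  · have := Finset.single_le_sum (f := fun k : ℕ => |u k - k * α|) (fun _ _ => abs_nonneg _)
      (Finset.mem_range.2 hn)
    have : 0 ≤ ε * n := by positivity
    linarith
  · have h1 := hN n (by omega)
    have h2 : (0 : ℝ) < n := by exact_mod_cast (by omega : 0 < n)
    rw [Real.dist_eq] at h1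
    have h3 : u n - n * α = n * (1 / n * u n - α) := by field_simp
    rw [h3, abs_mul, abs_of_pos h2]
    have : 0 ≤ ∑ k ∈ Finset.range (N + 1), |u k - k * α| :=
      Finset.sum_nonneg fun _ _ => abs_nonneg _
    nlinarith

theorem top_exp {A D Bn N b d : ℕ → ℝ} {K α δ : ℝ} (hA : ∀ n, 0 < A n) (hD : ∀ n, 0 < D n)
    (hb : ∀ n, |b n| ≤ K) (h0 : Bn 0 = 0) (hB : ∀ n, Bn (n + 1) = b n * A n + d n * Bn n)
    (hd : ∀ n, D (n + 1) = d n * D n)
    (ta : Tendsto (fun n : ℕ => (1 / (n : ℝ)) * Real.log (A n)) atTop (𝓝 α))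
    (td : Tendsto (fun n : ℕ => (1 / (n : ℝ)) * Real.log (D n)) atTop (𝓝 δ)) (hle : δ ≤ α)
    (h1 : ∀ n, A n ≤ N n) (h2 : ∀ n, N n ≤ A n + |Bn n| + D n) :
    Tendsto (fun n : ℕ => (1 / (n : ℝ)) * Real.log (N n)) atTop (𝓝 α) := by
  have hK : 0 ≤ K := (abs_nonneg _).trans (hb 0)
  rw [tendsto_order]
  constructor
  · intro c hc
    filter_upwards [ta.eventually (lt_mem_nhds hc)] with n hn
    refine hn.trans_le (mul_le_mul_of_nonneg_left (Real.log_le_log (hA n) (h1 n)) (by positivity))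
  · intro c hc
    set ε := (c - α) / 5 with hε
    have e0 : 0 < ε := by rw [hε]; linarith
    obtain ⟨C1, c1, hC1⟩ := lin_bound ta e0
    obtain ⟨C2, c2, hC2⟩ := lin_bound td e0
    set R : ℕ → ℝ := fun n => Real.exp (n * (α - δ + 2 * ε) + (C1 + C2 + |δ| + ε)) with hR
    have hAD : ∀ n, A n ≤ R n * D (n + 1) := by
      intro n
      rw [← Real.exp_log (hA n), ← Real.exp_log (hD (n + 1)), hR, ← Real.exp_add, Real.exp_le_exp]
      have a1 := (abs_le.1 (hC1 n)).2
      have a2 := (abs_le.1 (hC2 (n + 1))).1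
      push_cast at a2
      have := neg_abs_le δ
      nlinarith
    have hRm : ∀ n, R n ≤ R (n + 1) := by
      intro n
      rw [hR, Real.exp_le_exp]; push_cast; nlinarith
    have hR0 : ∀ n, 0 < R n := fun n => Real.exp_pos _
    have hBn : ∀ n : ℕ, |Bn n| ≤ n * K * R n * D n := by
      intro n
      induction n with
      | zero => simp [h0]
      | succ n ih =>
        have d0 : 0 < d n := by
          have := hD (n + 1); rw [hd] at this; exact (pos_iff_pos_of_mul_pos this).2 (hD n)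
        rw [hB]
        refine (abs_add_le _ _).trans ?_
        rw [abs_mul, abs_mul, abs_of_pos (hA n), abs_of_pos d0]
        have a1 : |b n| * A n ≤ K * (R n * D (n + 1)) :=
          mul_le_mul (hb n) (hAD n) (hA n).le hK
        have a2 : d n * |Bn n| ≤ n * K * R n * D (n + 1) := by
          rw [hd]
          calc d n * |Bn n| ≤ d n * (n * K * R n * D n) := mul_le_mul_of_nonneg_left ih d0.le
            _ = _ := by ring
        have a3 : (n + 1) * K * R n * D (n + 1) ≤ (n + 1) * K * R (n + 1) * D (n + 1) :=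
          mul_le_mul_of_nonneg_right (mul_le_mul_of_nonneg_left (hRm n) (by positivity))
            (hD _).le
        push_cast
        nlinarith
    set C := C1 + 2 * C2 + |δ| + ε with hC
    have hN : ∀ n : ℕ, Real.log (N n) ≤ n * (α + 4 * ε) + (C + Real.log (K / ε + 2)) := by
      intro n
      have n0 : (0 : ℝ) ≤ n := Nat.cast_nonneg n
      have hX : 0 < Real.exp (n * (α + 3 * ε) + C) := Real.exp_pos _
      have a1 := (abs_le.1 (hC1 n)).2
      have a2 := (abs_le.1 (hC2 n)).2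
      have a3 := abs_nonneg δ
      have b1 : A n ≤ Real.exp (n * (α + 3 * ε) + C) := by
        rw [← Real.exp_log (hA n), Real.exp_le_exp]; nlinarith
      have b2 : D n ≤ Real.exp (n * (α + 3 * ε) + C) := by
        rw [← Real.exp_log (hD n), Real.exp_le_exp]; nlinarith
      have b3 : R n * D n ≤ Real.exp (n * (α + 3 * ε) + C) := by
        rw [← Real.exp_log (hD n), hR, ← Real.exp_add, Real.exp_le_exp]; nlinarith
      have b4 : n * K + 2 ≤ (K / ε + 2) * Real.exp (n * ε) := by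
        have := Real.add_one_le_exp (n * ε)
        have c3 : (K / ε + 2) * (n * ε + 1) ≤ (K / ε + 2) * Real.exp (n * ε) :=
          mul_le_mul_of_nonneg_left this (by positivity)
        have c4 : (K / ε + 2) * (n * ε + 1) = n * K + 2 + (K / ε + 2 * n * ε) := by
          field_simp; ring
        have : 0 ≤ K / ε + 2 * n * ε := by positivity
        linarith
      have b5 : |Bn n| ≤ n * K * Real.exp (n * (α + 3 * ε) + C) := by
        refine (hBn n).trans ?_
        rw [mul_assoc (n * K)]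
        exact mul_le_mul_of_nonneg_left b3 (by positivity)
      rw [Real.log_le_iff_le_exp ((hA n).trans_le (h1 n))]
      have b6 : Real.exp (n * (α + 4 * ε) + (C + Real.log (K / ε + 2))) =
          (K / ε + 2) * Real.exp (n * ε) * Real.exp (n * (α + 3 * ε) + C) := by
        conv_rhs => rw [← Real.exp_log (show 0 < K / ε + 2 by positivity)]
        rw [← Real.exp_add, ← Real.exp_add]; congr 1; ring
      rw [b6]
      have b7 := mul_le_mul_of_nonneg_right b4 hX.le
      linarith [h2 n]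
    have ht := tendsto_const_div_atTop_nhds_zero_nat (C + Real.log (K / ε + 2))
    filter_upwards [ht.eventually (gt_mem_nhds e0), eventually_gt_atTop 0] with n hn hn0
    have n0 : (0 : ℝ) < n := by exact_mod_cast hn0
    rw [one_div, inv_mul_lt_iff₀ n0]
    rw [div_lt_iff₀ n0] at hn
    have := hN n
    have hc2 : c = α + 5 * ε := by rw [hε]; ring
    rw [hc2]
    nlinarith

/-- lower triangular linear maps -/
noncomputable def M (a b d : ℝ) : ℝ × ℝ →L[ℝ] ℝ × ℝ :=
  (a • ContinuousLinearMap.fst ℝ ℝ ℝ).prod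
    (b • ContinuousLinearMap.fst ℝ ℝ ℝ + d • ContinuousLinearMap.snd ℝ ℝ ℝ)

theorem M_apply (a b d : ℝ) (v : ℝ × ℝ) : M a b d v = (a * v.1, b * v.1 + d * v.2) := by
  simp [M]

theorem M_comp (a b d a' b' d' : ℝ) :
    (M a b d).comp (M a' b' d') = M (a * a') (b * a' + d * b') (d * d') := by
  refine ContinuousLinearMap.ext fun v => ?_
  simp only [ContinuousLinearMap.comp_apply, M_apply]
  ext <;> simp <;> ring

theorem M_one : M 1 0 1 = ContinuousLinearMap.id ℝ (ℝ × ℝ) := by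
  refine ContinuousLinearMap.ext fun v => ?_
  simp [M_apply]

theorem inv_smooth {Ψ F : ℝ × ℝ → ℝ × ℝ} (hΨ : ContDiff ℝ (⊤ : ℕ∞) Ψ) (h1 : ∀ z, F (Ψ z) = z)
    (h2 : ∀ z, Ψ (F z) = z) {a b d : ℝ × ℝ → ℝ} (ha : ∀ z, 0 < a z) (hd : ∀ z, 0 < d z)
    (hD : ∀ z, HasFDerivAt Ψ (M (a z) (b z) (d z)) z) :
    ContDiff ℝ (⊤ : ℕ∞) F ∧ ∀ z, HasFDerivAt F
      (M (a (F z))⁻¹ (-(b (F z)) / (a (F z) * d (F z))) (d (F z))⁻¹) z := by
  let e : ℝ × ℝ → (ℝ × ℝ) ≃L[ℝ] (ℝ × ℝ) := fun z =>
    ContinuousLinearEquiv.equivOfInverse (M (a z) (b z) (d z))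
      (M (a z)⁻¹ (-(b z) / (a z * d z)) (d z)⁻¹)
      (fun v => by
        have := (ha z).ne'; have := (hd z).ne'
        simp only [M_apply]; ext <;> simp <;> field_simp; ring)
      (fun v => by
        have := (ha z).ne'; have := (hd z).ne'
        simp only [M_apply]; ext <;> simp <;> field_simp; ring)
  have he : ∀ z, HasFDerivAt Ψ (e z : ℝ × ℝ →L[ℝ] ℝ × ℝ) z := hD
  have hs : ∀ z, HasStrictFDerivAt Ψ (e z : ℝ × ℝ →L[ℝ] ℝ × ℝ) z := fun z =>
    hΨ.contDiffAt.hasStrictFDerivAt' (he z) (by simp)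
  let q : ℝ × ℝ ≃ ℝ × ℝ := ⟨Ψ, F, h1, h2⟩
  let H : ℝ × ℝ ≃ₜ ℝ × ℝ := q.toHomeomorphOfContinuousOpen hΨ.continuous
    (isOpenMap_of_hasStrictFDerivAt_equiv hs)
  have hF : ContDiff ℝ (⊤ : ℕ∞) F := H.contDiff_symm he hΨ
  refine ⟨hF, fun z => ?_⟩
  exact HasFDerivAt.of_local_left_inverse (f' := e (F z)) hF.continuous.continuousAt (he (F z))
    (Eventually.of_forall h2)

noncomputable def cc : (Fin 2 → ℝ) ≃L[ℝ] ℝ × ℝ := ContinuousLinearEquiv.finTwoArrow ℝ ℝ

noncomputable def N (a b d : ℝ) : (Fin 2 → ℝ) →L[ℝ] (Fin 2 → ℝ) :=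
  (cc.symm : ℝ × ℝ →L[ℝ] (Fin 2 → ℝ)).comp ((M a b d).comp (cc : (Fin 2 → ℝ) →L[ℝ] ℝ × ℝ))

theorem N_apply (a b d : ℝ) (v : Fin 2 → ℝ) : N a b d v = ![a * v 0, b * v 0 + d * v 1] := by
  simp [N, cc, M_apply]

theorem N_det (a b d : ℝ) : (N a b d).det = a * d := by
  rw [ContinuousLinearMap.det, ← LinearMap.det_toMatrix', Matrix.det_fin_two]
  simp [LinearMap.toMatrix'_apply, N_apply]

theorem N_low (a b d : ℝ) : a ≤ ‖N a b d‖ := by
  have h1 := (N a b d).le_opNorm (Pi.single 0 1)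
  have h2 := norm_le_pi_norm (N a b d (Pi.single 0 1)) 0
  rw [Pi.norm_single, norm_one, mul_one] at h1
  rw [N_apply] at h1 h2
  simp only [Pi.single_eq_same, mul_one, Matrix.cons_val_zero, Real.norm_eq_abs] at h1 h2
  exact (le_abs_self a).trans (h2.trans h1)

theorem N_up {a d : ℝ} (b : ℝ) (ha : 0 < a) (hd : 0 < d) : ‖N a b d‖ ≤ a + |b| + d := by
  refine ContinuousLinearMap.opNorm_le_bound _ (by positivity) fun v => ?_
  have h0 := norm_le_pi_norm v 0
  have h1 := norm_le_pi_norm v 1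
  rw [Real.norm_eq_abs] at h0 h1
  have := abs_nonneg b
  have := norm_nonneg v
  rw [pi_norm_le_iff_of_nonneg (by positivity), N_apply, Fin.forall_fin_two]
  simp only [Matrix.cons_val_zero, Matrix.cons_val_one, Real.norm_eq_abs]
  constructor
  · rw [abs_mul, abs_of_pos ha]; nlinarith
  · refine (abs_add_le _ _).trans ?_
    rw [abs_mul, abs_mul, abs_of_pos hd]; nlinarith

theorem birk {X : Type*} [MeasurableSpace X] {μ : Measure X} [IsProbabilityMeasure μ] {f : X → X}
    (hf : Ergodic f μ) {φ : X → ℝ} (hφ : Integrable φ μ) :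
    ∀ᵐ x ∂μ, Tendsto (fun n : ℕ => (1 / (n : ℝ)) * ∑ k ∈ Finset.range n, φ (f^[k] x)) atTop
      (𝓝 (∫ x, φ x ∂μ)) := by
  have h1 := Pool.Agent.Lib.helper9.Birkhoff.birkhoff hf.toMeasurePreserving hφ
  have hm : StronglyMeasurable[MeasurableSpace.invariants f] (μ[φ | MeasurableSpace.invariants f]) :=
    stronglyMeasurable_condExp
  obtain ⟨c, hc⟩ := hf.ae_eq_const_of_ae_eq_comp_ae
    (integrable_condExp (m := MeasurableSpace.invariants f) (f := φ)).aestronglyMeasurable
    (EventuallyEq.of_eq (MeasurableSpace.comp_eq_of_measurable_invariants hm.measurable))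
  have h2 : c = ∫ x, φ x ∂μ := by
    rw [← integral_condExp (MeasurableSpace.invariants_le f) (f := φ), integral_congr_ae hc]
    simp [Function.const]
  filter_upwards [h1, hc] with x hx hx'
  rw [hx'] at hx
  simpa [birkhoffAverage, birkhoffSum, h2] using hx

theorem qmp_coe : Measure.QuasiMeasurePreserving (fun x : ℝ => (x : T)) volume volume := by
  refine ⟨meas_coe, Measure.AbsolutelyContinuous.mk fun s hs h0 => ?_⟩
  rw [Measure.map_apply meas_coe hs]
  have : (fun x : ℝ => (x : T)) ⁻¹' s =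
      ⋃ k : ℤ, (fun x : ℝ => (x : T)) ⁻¹' s ∩ Ioc (k : ℝ) (k + 1) := by
    rw [← inter_iUnion, iUnion_Ioc_intCast, inter_univ]
  rw [this]
  refine measure_iUnion_null fun k => ?_
  have h := (UnitAddCircle.measurePreserving_mk k).measure_preimage hs.nullMeasurableSet
  rw [Measure.restrict_apply (meas_coe hs)] at h
  rw [h, h0]

instance instP : IsProbabilityMeasure (volume : Measure T) := ⟨UnitAddCircle.measure_univ⟩

instance instP2 : IsProbabilityMeasure (volume : Measure (T × T)) :=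
  inferInstanceAs (IsProbabilityMeasure ((volume : Measure T).prod volume))

def π (z : ℝ × ℝ) : T × T := ((z.1 : T), (z.2 : T))

theorem assemble {F : ℝ × ℝ → ℝ × ℝ} (hF : ContDiff ℝ (⊤ : ℕ∞) F) {a b d : ℝ × ℝ → ℝ}
    (hD : ∀ z, HasFDerivAt F (M (a z) (b z) (d z)) z) (ha : ∀ z, 0 < a z) (hd : ∀ z, 0 < d z)
    {K : ℝ} (hb : ∀ z, |b z| ≤ K) {f : T × T → T × T} (hl : ∀ z, f (π z) = π (F z))
    {la ld : T × T → ℝ} (ia : Integrable la) (id : Integrable ld)
    (ea : ∀ z, la (π z) = Real.log (a z)) (ed : ∀ z, ld (π z) = Real.log (d z))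
    (he : ∀ m, 0 < m → Ergodic f^[m] volume) {m : ℕ} (hm : 0 < m)
    (hle : ∫ z, ld z ≤ ∫ z, la z) :
    Goal (m * ∫ z, la z) (m * ((∫ z, la z) + ∫ z, ld z)) := by
  have hln : ∀ n z, f^[n] (π z) = π (F^[n] z) := by
    intro n z
    induction n with
    | zero => rfl
    | succ n ih => rw [Function.iterate_succ_apply', Function.iterate_succ_apply', ih, hl]
  have hv := volume_preserving_finTwoArrow T
  have herg : Ergodic (MeasurableEquiv.finTwoArrow.symm ∘ f^[m] ∘ MeasurableEquiv.finTwoArrow)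
      (volume : Measure (Fin 2 → T)) :=
    (MeasurePreserving.ergodic_conjugate_iff (hv.symm _)).2 (he m hm)
  have hFn : ∀ n, ContDiff ℝ (⊤ : ℕ∞) F^[n] := by
    intro n
    induction n with
    | zero => exact contDiff_id
    | succ n ih => rw [Function.iterate_succ']; exact hF.comp ih
  refine ⟨_, cc.symm ∘ F^[m] ∘ cc, cc.symm.contDiff.comp ((hFn m).comp cc.contDiff), fun x => ?_,
    herg.toMeasurePreserving, herg, ?_⟩
  · have := hln m (cc x)
    have h2 : MeasurableEquiv.finTwoArrow (fun i => ((x i : ℝ) : T)) = π (cc x) := rfl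
    simp only [Function.comp, h2, this]
    ext i
    fin_cases i <;> rfl
  have q1 : Measure.QuasiMeasurePreserving π volume volume := MeasureTheory.QuasiMeasurePreserving.prodMap qmp_coe qmp_coe
  have q2 : Measure.QuasiMeasurePreserving (fun x : Fin 2 → ℝ => π (cc x)) volume volume :=
    q1.comp (volume_preserving_finTwoArrow ℝ).quasiMeasurePreserving
  have he1 : Ergodic f volume := by simpa using he 1 one_pos
  filter_upwards [q2.ae (birk he1 ia), q2.ae (birk he1 id)] with x ta td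
  simp only [hln, ea, ed] at ta td
  set z := cc x with hz
  let A : ℕ → ℝ := fun n => ∏ k ∈ Finset.range n, a (F^[k] z)
  let D : ℕ → ℝ := fun n => ∏ k ∈ Finset.range n, d (F^[k] z)
  let Bn : ℕ → ℝ := fun n => Nat.rec 0 (fun n x => b (F^[n] z) * A n + d (F^[n] z) * x) n
  have hA : ∀ n, 0 < A n := fun n => Finset.prod_pos fun _ _ => ha _
  have hD0 : ∀ n, 0 < D n := fun n => Finset.prod_pos fun _ _ => hd _
  have hder : ∀ n, HasFDerivAt F^[n] (M (A n) (Bn n) (D n)) z := by
    intro n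
    induction n with
    | zero => simpa [A, D, Bn, M_one] using hasFDerivAt_id z
    | succ n ih =>
      rw [Function.iterate_succ']
      have := (hD (F^[n] z)).comp z ih
      rw [M_comp] at this
      have e1 : A (n + 1) = a (F^[n] z) * A n := by simp [A, Finset.prod_range_succ, mul_comm]
      have e2 : D (n + 1) = d (F^[n] z) * D n := by simp [D, Finset.prod_range_succ, mul_comm]
      rw [e1, e2]
      exact this
  have ta' : Tendsto (fun n : ℕ => (1 / (n : ℝ)) * Real.log (A n)) atTop (𝓝 (∫ z, la z)) := by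
    simp only [A, Real.log_prod fun _ _ => (ha _).ne']; exact ta
  have td' : Tendsto (fun n : ℕ => (1 / (n : ℝ)) * Real.log (D n)) atTop (𝓝 (∫ z, ld z)) := by
    simp only [D, Real.log_prod fun _ _ => (hd _).ne']; exact td
  have t1 := top_exp (N := fun n => ‖N (A n) (Bn n) (D n)‖) (Bn := Bn) (b := fun n => b (F^[n] z))
    (d := fun n => d (F^[n] z)) hA hD0 (fun n => hb _) rfl (fun n => rfl)
    (fun n => by simp [D, Finset.prod_range_succ, mul_comm]) ta' td' hle (fun n => N_low _ _ _)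
    (fun n => N_up _ (hA n) (hD0 n))
  have t2 : Tendsto (fun n : ℕ => (1 / (n : ℝ)) * Real.log |(N (A n) (Bn n) (D n)).det|) atTop
      (𝓝 ((∫ z, la z) + ∫ z, ld z)) := by
    refine (ta'.add td').congr fun n => ?_
    rw [N_det, abs_of_pos (mul_pos (hA n) (hD0 n)), Real.log_mul (hA n).ne' (hD0 n).ne', mul_add]
  have hit : ∀ n, fderiv ℝ (cc.symm ∘ F^[m] ∘ cc)^[n] x = N (A (m * n)) (Bn (m * n)) (D (m * n)) := by
    intro n
    have h1 : (cc.symm ∘ F^[m] ∘ cc)^[n] = cc.symm ∘ F^[m * n] ∘ cc := by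
      induction n with
      | zero => ext1 y; simp
      | succ n ih =>
        rw [Function.iterate_succ', ih, Nat.mul_succ, add_comm, Function.iterate_add]
        ext1 y; simp
    rw [h1]
    exact (cc.symm.hasFDerivAt.comp x ((hder (m * n)).comp x cc.hasFDerivAt)).fderiv
  have hmn : Tendsto (fun n => m * n) atTop atTop := tendsto_id.const_mul_atTop' hm
  have sc : ∀ (u : ℕ → ℝ) (c : ℝ), Tendsto (fun n : ℕ => (1 / (n : ℝ)) * u n) atTop (𝓝 c) →
      Tendsto (fun n : ℕ => (1 / (n : ℝ)) * u (m * n)) atTop (𝓝 (m * c)) := by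
    intro u c h
    refine ((h.comp hmn).const_mul (m : ℝ)).congr fun n => ?_
    have : (m : ℝ) ≠ 0 := by positivity
    simp only [Function.comp, Nat.cast_mul, one_div, mul_inv]
    field_simp
  simp only [hit]
  exact ⟨sc _ _ t1, sc _ _ t2⟩

end Pool.Agent.H.Flex
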