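import Mathlib
import Pool.Agent.H.MP_0e2194_an.Asm

set_option autoImplicit false
open MeasureTheory Set Filter Topology

namespace Pool.Agent.H.Flex

theorem int_bdd {X : Type*} [MeasurableSpace X] {μ : Measure X} [IsFiniteMeasure μ] {φ : X → ℝ}
    (hm : Measurable φ) {C : ℝ} (hC : ∀ x, |φ x| ≤ C) : Integrable φ μ :=
  Integrable.of_bound hm.aestronglyMeasurable C (Eventually.of_forall hC)

namespace Br
variable (B : Br)

noncomputable def lam : ℝ := ∫ u in (0 : ℝ)..1, Real.binEntropy (B.p u)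

noncomputable def la (x : T) : ℝ := - Real.log (B.p (B.E (rep x)))

theorem clog : Continuous fun u => - Real.log (B.p u) :=
  (B.cp.log fun u => (B.pos u).ne').neg

theorem log_bdd : ∃ C, ∀ u, |- Real.log (B.p u)| ≤ C := by
  obtain ⟨⟨x, hx⟩, -⟩ := per_bdd B.clog.abs two_pos (fun u => by simp only [B.per2 u])
  exact ⟨_, hx⟩

theorem la_meas : Measurable B.la := (B.clog.comp B.cE).measurable.comp rep_meas

theorem la_int : Integrable B.la := by
  obtain ⟨C, hC⟩ := B.log_bdd
  exact int_bdd B.la_meas fun x => hC _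

theorem p_int (u : ℝ) (k : ℤ) : B.p (u + 2 * k) = B.p u := by
  rw [mul_comm]; exact B.per2.int_mul k u

theorem la_coe (x : ℝ) : B.la (x : T) = Real.log (B.p (B.E x))⁻¹ := by
  obtain ⟨k, hk⟩ := rep_coe x
  rw [la, hk, B.E_int, B.p_int, Real.log_inv]

theorem int_la : ∫ x, B.la x = B.lam := by
  obtain ⟨C, hC⟩ := B.log_bdd
  rw [intT]
  simp only [B.la_coe, Real.log_inv]
  rw [B.dual B.clog.measurable fun u _ => hC u, lam]
  congr 1
  ext u
  rw [B.per, Real.binEntropy, Real.log_inv, Real.log_inv]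

theorem goal_prod {g h q : ℝ → ℝ} (hs : ContDiff ℝ (⊤ : ℕ∞) h) (hq : ∀ y, HasDerivAt h (q y) y)
    (q0 : ∀ y, 0 < q y) (gh : ∀ y, g (h y) = y) (hg : ∀ y, h (g y) = y) {S : T → T}
    (hS : ∀ y : ℝ, S (y : T) = (g y : ℝ)) (he : ∀ m, 0 < m → Ergodic S^[m] volume)
    {ld : T → ℝ} (hi : Integrable ld) (hl : ∀ y : ℝ, ld (y : T) = Real.log (q (g y))⁻¹)
    (hle : ∫ y, ld y ≤ B.lam) {m : ℕ} (hm : 0 < m) :
    Goal (m * B.lam) (m * (B.lam + ∫ y, ld y)) := by
  have hG := B.G_sm
  obtain ⟨h1, h2⟩ := inv_smooth (Ψ := fun z => (B.G z.1, h z.2)) (F := fun z => (B.E z.1, g z.2))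
    (by fun_prop) (fun z => by simp [B.EG, gh]) (fun z => by simp [B.GE, hg])
    (a := fun z => B.p z.1) (b := fun _ => 0) (d := fun z => q z.2) (fun z => B.pos _)
    (fun z => q0 _) (fun z => by
      have := ((B.hG z.1).comp_hasFDerivAt z (hasFDerivAt_fst (𝕜 := ℝ))).prodMk
        ((hq z.2).comp_hasFDerivAt z (hasFDerivAt_snd (𝕜 := ℝ)))
      refine this.congr_fderiv ?_
      refine ContinuousLinearMap.ext fun v => ?_
      simp [M_apply])
  have e1 : ∫ z : T × T, B.la z.1 = B.lam := by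
    rw [← B.int_la]; exact (integral_fun_fst B.la).trans (by simp)
  have e2 : ∫ z : T × T, ld z.2 = ∫ y, ld y := (integral_fun_snd ld).trans (by simp)
  have := assemble h1 h2 (fun z => inv_pos.2 (B.pos _)) (fun z => inv_pos.2 (q0 _)) (K := 0)
    (fun z => by simp) (f := Prod.map B.e S) (fun z => by simp [π, B.e_coe, hS])
    (la := fun z => B.la z.1) (ld := fun z => ld z.2) (B.la_int.comp_fst _) (hi.comp_snd _)
    (fun z => B.la_coe _) (fun z => hl _)
    (fun m hm => by rw [Prod.map_iterate]; exact B.prod_erg hm (he m hm)) hm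
    (by rw [e1, e2]; exact hle)
  rwa [e1, e2] at this

theorem goal_two (B' : Br) (hle : B'.lam ≤ B.lam) {m : ℕ} (hm : 0 < m) :
    Goal (m * B.lam) (m * (B.lam + B'.lam)) := by
  have := B.goal_prod B'.G_sm B'.hG B'.pos B'.EG B'.GE B'.e_coe (fun m hm => B'.e_erg hm)
    B'.la_int B'.la_coe (by rwa [B'.int_la]) hm
  rwa [B'.int_la] at this

theorem lam_nonneg : 0 ≤ B.lam :=
  intervalIntegral.integral_nonneg zero_le_one fun u _ =>
    Real.binEntropy_nonneg (B.pos u).le (B.lt1 u).le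

theorem goal_rot {m : ℕ} (hm : 0 < m) : Goal (m * B.lam) (m * B.lam) := by
  have := B.goal_prod (g := fun y => √2 + y) (h := fun y => y - √2) (q := fun _ => 1)
    (by fun_prop) (fun y => (hasDerivAt_id y).sub_const _) (fun _ => one_pos)
    (fun y => by ring) (fun y => by ring) (S := fun y => ((√2 : ℝ) : T) + y)
    (fun y => by simp) (fun m hm => by
      rw [add_left_iterate]
      refine AddCircle.ergodic_add_left.2 ?_
      rw [addOrderOf_eq_zero_iff']
      intro n hn h0
      rw [← mul_nsmul, ← AddCircle.coe_nsmul, AddCircle.coe_eq_zero_iff] at h0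
      obtain ⟨k, hk⟩ := h0
      have h1 : Irrational (((m * n : ℕ) : ℝ) * √2) :=
        irrational_sqrt_two.natCast_mul (by positivity)
      refine h1.ne_int k ?_
      simpa using hk.symm)
    (ld := fun _ => 0) (by simp) (fun y => by simp) (by simpa using B.lam_nonneg) hm
  simpa using this

end Br
end Pool.Agent.H.Flex
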