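import Mathlib
import Pool.Agent.H.MP_0e2194_an.Prd

set_option autoImplicit false
open MeasureTheory Set Filter Topology

namespace Pool.Agent.H.Flex

theorem per2_bdd {φ : ℝ × ℝ → ℝ} (hc : Continuous φ)
    (hp : ∀ (u y : ℝ) (k l : ℤ), φ (u + 2 * k, y + l) = φ (u, y)) : ∃ K, ∀ z, |φ z| ≤ K := by
  obtain ⟨K, hK⟩ := ((isCompact_Icc (a := (0 : ℝ)) (b := 2)).prod
    (isCompact_Icc (a := (0 : ℝ)) (b := 1))).exists_bound_of_continuousOn hc.continuousOn
  refine ⟨K, fun z => ?_⟩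
  have := hp z.1 z.2 (-⌊z.1 / 2⌋) (-⌊z.2⌋)
  rw [show φ z = φ (z.1, z.2) from rfl, ← this]
  refine hK _ ⟨⟨?_, ?_⟩, ?_, ?_⟩ <;> push_cast
  · linarith [Int.floor_le (z.1 / 2)]
  · linarith [Int.lt_floor_add_one (z.1 / 2)]
  · linarith [Int.floor_le z.2]
  · linarith [Int.lt_floor_add_one z.2]

theorem intTT {ψ : T × T → ℝ} (hm : Measurable ψ) {C : ℝ} (hC : ∀ z, |ψ z| ≤ C) :
    ∫ z, ψ z = ∫ x in (0 : ℝ)..1, ∫ y in (0 : ℝ)..1, ψ (π (x, y)) := by
  have := integral_prod (μ := (volume : Measure T)) (ν := (volume : Measure T)) ψ (int_bdd hm hC)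
  refine this.trans ?_
  rw [intT]
  simp only [intT]
  rfl

theorem meas_π : Measurable π := (meas_coe.comp measurable_fst).prodMk (meas_coe.comp measurable_snd)

theorem meas_par {φ : ℝ × ℝ → ℝ} (hm : Measurable φ) :
    Measurable fun u => ∫ z in (0 : ℝ)..1, φ (u, z) := by
  simp only [intervalIntegral.integral_of_le zero_le_one]
  exact (hm.stronglyMeasurable.integral_prod_right'
    (ν := volume.restrict (Ioc (0 : ℝ) 1))).measurable

structure Sk0 extends Br where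
  σ : ℝ → ℝ
  q : ℝ → ℝ
  σs : ContDiff ℝ (⊤ : ℕ∞) σ
  qs : ContDiff ℝ (⊤ : ℕ∞) q
  σper : ∀ u, σ (u + 1) = - σ u
  qper : ∀ y, q (y + 1) = q y
  q0 : q 0 = 0
  Jpos : ∀ u y, 0 < p u + σ u * deriv q y

namespace Sk0
variable (K : Sk0)

noncomputable def τ (u : ℝ) : ℝ := K.σ u / K.p u
noncomputable def h (u y : ℝ) : ℝ := y + K.τ u * K.q y
noncomputable def j (u y : ℝ) : ℝ := 1 + K.τ u * deriv K.q y
noncomputable def J (u y : ℝ) : ℝ := K.p u + K.σ u * deriv K.q y

theorem τs : ContDiff ℝ (⊤ : ℕ∞) K.τ := K.σs.div K.sm fun u => (K.pos u).ne'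

theorem pj (u y : ℝ) : K.p u * K.j u y = K.J u y := by
  have := (K.pos u).ne'
  rw [j, J, τ]; field_simp

theorem jpos (u y : ℝ) : 0 < K.j u y := by
  have h := K.Jpos u y
  rw [← J, ← K.pj] at h
  exact (pos_iff_pos_of_mul_pos h).1 (K.pos u)

theorem Jper (u y : ℝ) : K.J (u + 1) y = 1 - K.J u y := by
  rw [J, J, K.per, K.σper]; ring

theorem hq (y : ℝ) : HasDerivAt K.q (deriv K.q y) y :=
  (K.qs.differentiable (by simp) y).hasDerivAt

theorem hτ (u : ℝ) : HasDerivAt K.τ (deriv K.τ u) u :=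
  (K.τs.differentiable (by simp) u).hasDerivAt

theorem cq : Continuous K.q := K.qs.continuous
theorem cσ : Continuous K.σ := K.σs.continuous
theorem cτ : Continuous K.τ := K.τs.continuous
theorem cdq : Continuous (deriv K.q) := K.qs.continuous_deriv (by simp)
theorem cdτ : Continuous (deriv K.τ) := K.τs.continuous_deriv (by simp)

theorem cj : Continuous fun z : ℝ × ℝ => K.j z.1 z.2 := by
  have := K.cτ; have := K.cdq
  unfold j; fun_prop

theorem ch : Continuous fun z : ℝ × ℝ => K.h z.1 z.2 := by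
  have := K.cτ; have := K.cq
  unfold h; fun_prop

theorem hh (u y : ℝ) : HasDerivAt (K.h u) (K.j u y) y :=
  (hasDerivAt_id y).add ((K.hq y).const_mul (K.τ u))

theorem τper : Function.Periodic K.τ 2 := fun u => by
  rw [τ, τ, K.per2, show u + 2 = u + 1 + 1 by ring, K.σper, K.σper, neg_neg]

theorem τ_int (u : ℝ) (k : ℤ) : K.τ (u + 2 * k) = K.τ u := by
  rw [mul_comm]; exact K.τper.int_mul k u

theorem dτ_int (u : ℝ) (k : ℤ) : deriv K.τ (u + 2 * k) = deriv K.τ u := by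
  rw [← deriv_comp_add_const]; simp only [K.τ_int]

theorem q_int (y : ℝ) (k : ℤ) : K.q (y + k) = K.q y := by
  have := (show Function.Periodic K.q 1 from K.qper).int_mul k y
  rwa [mul_one] at this

theorem dq_int (y : ℝ) (k : ℤ) : deriv K.q (y + k) = deriv K.q y := by
  rw [← deriv_comp_add_const]; simp only [K.q_int]

theorem h_int (u y : ℝ) (k l : ℤ) : K.h (u + 2 * k) (y + l) = K.h u y + l := by
  rw [h, h, K.τ_int, K.q_int]; ring

theorem j_int (u y : ℝ) (k l : ℤ) : K.j (u + 2 * k) (y + l) = K.j u y := by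
  rw [j, j, K.τ_int, K.dq_int]

theorem h0 (u : ℝ) : K.h u 0 = 0 := by simp [h, K.q0]

theorem h1 (u : ℝ) : K.h u 1 = 1 := by
  have := K.qper 0
  rw [zero_add, K.q0] at this
  simp [h, this]

theorem hmono (u : ℝ) : StrictMono (K.h u) :=
  strictMono_of_deriv_pos fun y => by rw [(K.hh u y).deriv]; exact K.jpos u y

theorem hsurj (u : ℝ) : Function.Surjective (K.h u) := by
  intro x
  have h : x - ⌊x⌋ ∈ Icc (K.h u 0) (K.h u 1) := by
    rw [K.h0, K.h1]
    exact ⟨by linarith [Int.floor_le x], by linarith [Int.lt_floor_add_one x]⟩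
  obtain ⟨y, -, hy⟩ := intermediate_value_Icc (by norm_num)
    (fun y _ => (K.hh u y).continuousAt.continuousWithinAt) h
  refine ⟨y + ⌊x⌋, ?_⟩
  have := K.h_int u y 0 ⌊x⌋
  simp only [Int.cast_zero, mul_zero, add_zero] at this
  rw [this, hy]; ring

noncomputable def k (u : ℝ) : ℝ → ℝ := ((K.hmono u).orderIsoOfSurjective _ (K.hsurj u)).symm

theorem hk (u y : ℝ) : K.h u (K.k u y) = y :=
  ((K.hmono u).orderIsoOfSurjective _ (K.hsurj u)).apply_symm_apply y

theorem kh (u y : ℝ) : K.k u (K.h u y) = y :=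
  ((K.hmono u).orderIsoOfSurjective _ (K.hsurj u)).symm_apply_apply y

theorem k_int (u y : ℝ) (a l : ℤ) : K.k (u + 2 * a) (y + l) = K.k u y + l := by
  apply (K.hmono (u + 2 * a)).injective
  rw [K.hk, K.h_int, K.hk]

noncomputable def F (z : ℝ × ℝ) : ℝ × ℝ := (K.E z.1, K.k (K.E z.1) z.2)

theorem F_sm : ContDiff ℝ (⊤ : ℕ∞) K.F ∧ ∀ z, HasFDerivAt K.F
    (M (K.p (K.F z).1)⁻¹ (-(deriv K.τ (K.F z).1 * K.q (K.F z).2) /
      (K.p (K.F z).1 * K.j (K.F z).1 (K.F z).2)) (K.j (K.F z).1 (K.F z).2)⁻¹) z := by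
  have hG := K.G_sm
  have := K.τs
  have := K.qs
  refine inv_smooth (Ψ := fun z => (K.G z.1, K.h z.1 z.2)) (by unfold h; fun_prop)
    (fun z => by simp [F, K.EG, K.kh]) (fun z => by simp [F, K.GE, K.hk])
    (a := fun z => K.p z.1) (b := fun z => deriv K.τ z.1 * K.q z.2) (d := fun z => K.j z.1 z.2)
    (fun z => K.pos _) (fun z => K.jpos _ _) fun z => ?_
  have := ((K.hG z.1).comp_hasFDerivAt z (hasFDerivAt_fst (𝕜 := ℝ))).prodMk
    ((hasFDerivAt_snd (𝕜 := ℝ)).add
      (((K.hτ z.1).comp_hasFDerivAt z (hasFDerivAt_fst (𝕜 := ℝ))).mul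
        ((K.hq z.2).comp_hasFDerivAt z (hasFDerivAt_snd (𝕜 := ℝ)))))
  refine this.congr_fderiv ?_
  refine ContinuousLinearMap.ext fun v => ?_
  simp [M_apply, j]
  ring

theorem cF : Continuous K.F := K.F_sm.1.continuous

theorem F_int (x y : ℝ) (a l : ℤ) :
    K.F (x + a, y + l) = ((K.F (x, y)).1 + 2 * a, (K.F (x, y)).2 + l) := by
  simp only [F, K.E_int, K.k_int]

noncomputable def f (z : T × T) : T × T := π (K.F (rep z.1, rep z.2))

theorem f_meas : Measurable K.f :=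
  meas_π.comp (K.cF.measurable.comp ((rep_meas.comp measurable_fst).prodMk
    (rep_meas.comp measurable_snd)))

theorem f_π (z : ℝ × ℝ) : K.f (π z) = π (K.F z) := by
  obtain ⟨a, ha⟩ := rep_coe z.1
  obtain ⟨l, hl⟩ := rep_coe z.2
  simp only [f, π, ha, hl, K.F_int]
  rw [show (2 * a : ℝ) = ((2 * a : ℤ) : ℝ) by push_cast; ring, coe_int, coe_int]

theorem fn_π (n : ℕ) (z : ℝ × ℝ) : K.f^[n] (π z) = π (K.F^[n] z) := by
  induction n with
  | zero => rfl
  | succ n ih => rw [Function.iterate_succ_apply', Function.iterate_succ_apply', ih, K.f_π]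

theorem Jle (u y : ℝ) : |K.J u y| ≤ 1 := by
  have h1 := K.Jpos u y
  have h2 := K.Jpos (u + 1) y
  rw [← J] at h1 h2
  rw [K.Jper] at h2
  rw [abs_of_pos h1]; linarith

theorem cJ : Continuous fun z : ℝ × ℝ => K.J z.1 z.2 := by
  have := K.cσ; have := K.cdq; have := K.cp
  unfold J; fun_prop

theorem cv2 {φ : ℝ × ℝ → ℝ} (hm : Measurable φ) {C : ℝ} (hC : ∀ z, |φ z| ≤ C) :
    ∫ x in (0 : ℝ)..1, ∫ y in (0 : ℝ)..1, φ (K.F (x, y)) =
      ∫ u in (0 : ℝ)..1, ∫ y in (0 : ℝ)..1,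
        (K.J u y * φ (u, y) + K.J (u + 1) y * φ (u + 1, y)) := by
  have e1 : ∀ u, ∫ y in (0 : ℝ)..1, φ (u, K.k u y) = ∫ y in (0 : ℝ)..1, K.j u y * φ (u, y) := by
    intro u
    have := cv (K.hh u) (K.jpos u) zero_le_one (fun y => φ (u, K.k u y))
    simpa only [K.h0, K.h1, K.kh] using this
  have hm1 : Measurable fun z : ℝ × ℝ => K.j z.1 z.2 * φ z := K.cj.measurable.mul hm
  have hb : ∀ u, |∫ y in (0 : ℝ)..1, K.j u y * φ (u, y)| ≤ C := fun u => by
    rw [← e1]
    simpa using intervalIntegral.norm_integral_le_of_norm_le_const (a := (0 : ℝ)) (b := 1)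
      (f := fun y => φ (u, K.k u y)) fun y _ => hC _
  have := K.dual (meas_par hm1) fun u _ => hb u
  simp only [F, e1]
  rw [this]
  congr 1
  ext u
  have ii : ∀ u, IntervalIntegrable (fun y => K.J u y * φ (u, y)) volume 0 1 := fun u =>
    ii_of_bdd (χ := fun y => K.J u y * φ (u, y))
      ((K.cJ.measurable.mul hm).comp measurable_prodMk_left) zero_le_one (C := 1 * C)
      fun y _ => by
        rw [abs_mul]; exact mul_le_mul (K.Jle _ _) (hC _) (abs_nonneg _) zero_le_one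
  rw [intervalIntegral.integral_add (ii u) (ii (u + 1)), ← intervalIntegral.integral_const_mul,
    ← intervalIntegral.integral_const_mul]
  simp only [← K.pj, mul_assoc]

theorem int_f {ψ : T × T → ℝ} (hm : Measurable ψ) {C : ℝ} (hC : ∀ z, |ψ z| ≤ C) :
    ∫ z, ψ (K.f z) = ∫ z, ψ z := by
  rw [intTT (ψ := fun z => ψ (K.f z)) (hm.comp K.f_meas) (fun z => hC _), intTT hm hC]
  simp only [K.f_π]
  rw [K.cv2 (φ := fun z => ψ (π z)) (hm.comp meas_π) fun z => hC _]
  congr 1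
  ext u
  congr 1
  ext y
  have : π (u + 1, y) = π (u, y) := by
    simp only [π]; rw [show ((u + 1 : ℝ) : T) = (u : T) from by simpa using coe_int u 1]
  rw [this, K.Jper]; ring

theorem f_mp : MeasurePreserving K.f volume volume := by
  refine ⟨K.f_meas, Measure.ext fun A hA => ?_⟩
  rw [Measure.map_apply K.f_meas hA]
  have := K.int_f (ψ := A.indicator 1) (measurable_one.indicator hA) (ind_abs A)
  rw [integral_indicator_one hA] at this
  have h2 : (fun x => A.indicator (1 : T × T → ℝ) (K.f x)) = (K.f ⁻¹' A).indicator 1 := by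
    ext x; by_cases h : K.f x ∈ A <;> simp [h]
  rw [h2, integral_indicator_one (K.f_meas hA)] at this
  exact (ENNReal.toReal_eq_toReal_iff' (measure_ne_top _ _) (measure_ne_top _ _)).1 this

noncomputable def ent : ℝ := ∫ u in (0 : ℝ)..1, ∫ y in (0 : ℝ)..1, Real.binEntropy (K.J u y)

theorem goal (he : ∀ m, 0 < m → Ergodic K.f^[m] volume) (hle : K.ent ≤ 2 * K.lam) {m : ℕ}
    (hm : 0 < m) : Goal (m * K.lam) (m * K.ent) := by
  have c1 : Continuous fun z : ℝ × ℝ => -(deriv K.τ z.1 * K.q z.2) / (K.p z.1 * K.j z.1 z.2) := by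
    have := K.cdτ; have := K.cq; have := K.cp; have := K.cj
    exact Continuous.div (by fun_prop) (by fun_prop)
      fun z => (mul_pos (K.pos _) (K.jpos _ _)).ne'
  obtain ⟨C1, hC1⟩ := per2_bdd c1 fun u y k l => by
    simp only [K.dτ_int, K.q_int, K.p_int, K.j_int]
  have c2 : Continuous fun z : ℝ × ℝ => - Real.log (K.j z.1 z.2) :=
    (K.cj.log fun z => (K.jpos _ _).ne').neg
  obtain ⟨C2, hC2⟩ := per2_bdd c2 fun u y k l => by simp only [K.j_int]
  obtain ⟨C3, hC3⟩ := K.log_bdd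
  set ld : T × T → ℝ := fun z =>
    - Real.log (K.j (K.F (rep z.1, rep z.2)).1 (K.F (rep z.1, rep z.2)).2) with hld
  have m1 : Measurable ld := (c2.comp K.cF).measurable.comp
    ((rep_meas.comp measurable_fst).prodMk (rep_meas.comp measurable_snd))
  have i1 : Integrable ld := int_bdd m1 fun z => hC2 _
  have ed : ∀ z, ld (π z) = Real.log (K.j (K.F z).1 (K.F z).2)⁻¹ := by
    intro z
    obtain ⟨a, ha⟩ := rep_coe z.1
    obtain ⟨l, hl⟩ := rep_coe z.2
    simp only [hld, π, ha, hl, K.F_int, K.j_int, Real.log_inv]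
  have e1 : ∫ z : T × T, K.la z.1 = K.lam := by
    rw [← K.int_la]; exact (integral_fun_fst K.la).trans (by simp)
  have i2 : Integrable fun z : T × T => K.la z.1 := K.la_int.comp_fst _
  have e2 : (∫ z : T × T, K.la z.1) + ∫ z, ld z = K.ent := by
    rw [← integral_add i2 i1, intTT (ψ := fun z => K.la z.1 + ld z)
      ((K.la_meas.comp measurable_fst).add m1) (C := C3 + C2)
      fun z => (abs_add_le _ _).trans (add_le_add (hC3 _) (hC2 _))]
    have e3 : ∀ x y : ℝ, K.la (π (x, y)).1 + ld (π (x, y)) =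
        (fun z : ℝ × ℝ => - Real.log (K.p z.1) + - Real.log (K.j z.1 z.2)) (K.F (x, y)) := by
      intro x y
      rw [ed]
      simp only [π, K.la_coe, Real.log_inv]
      rfl
    simp only [e3]
    rw [K.cv2 (φ := fun z : ℝ × ℝ => - Real.log (K.p z.1) + - Real.log (K.j z.1 z.2))
      ((K.clog.comp continuous_fst).add c2).measurable (C := C3 + C2)
      fun z => (abs_add_le _ _).trans (add_le_add (hC3 _) (hC2 _)), ent]
    congr 1
    ext u
    congr 1
    ext y
    simp only [← neg_add, ← Real.log_mul (K.pos _).ne' (K.jpos _ _).ne', K.pj]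
    rw [K.Jper, Real.binEntropy, Real.log_inv, Real.log_inv]
  have := assemble K.F_sm.1 K.F_sm.2 (fun z => inv_pos.2 (K.pos _))
    (fun z => inv_pos.2 (K.jpos _ _)) (fun z => hC1 (K.F z)) K.f_π i2 i1
    (fun z => K.la_coe _) ed he hm (by linarith)
  rwa [e2, e1] at this

end Sk0
end Pool.Agent.H.Flex
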