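import Mathlib
import Pool.Agent.H.MP_0e2194_an.Skew

set_option autoImplicit false
open MeasureTheory Set Filter Topology

namespace Pool.Agent.H.Flex

noncomputable def II (φ : ℝ × ℝ → ℝ) : ℝ := ∫ x in (0 : ℝ)..1, ∫ y in (0 : ℝ)..1, φ (x, y)

theorem c_par {φ : ℝ × ℝ → ℝ} (hc : Continuous φ) :
    Continuous fun x => ∫ y in (0 : ℝ)..1, φ (x, y) :=
  intervalIntegral.continuous_parametric_intervalIntegral_of_continuous' (f := fun x y => φ (x, y))
    hc 0 1

theorem II_mono {φ ψ : ℝ × ℝ → ℝ} (h1 : Continuous φ) (h2 : Continuous ψ)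
    (h : ∀ x, ∀ y ∈ Icc (0 : ℝ) 1, φ (x, y) ≤ ψ (x, y)) : II φ ≤ II ψ :=
  intervalIntegral.integral_mono_on zero_le_one ((c_par h1).intervalIntegrable _ _)
    ((c_par h2).intervalIntegrable _ _) fun x _ =>
      intervalIntegral.integral_mono_on zero_le_one
        ((h1.comp (Continuous.prodMk_right x)).intervalIntegrable _ _)
        ((h2.comp (Continuous.prodMk_right x)).intervalIntegrable _ _) (h x)

theorem II_add {φ ψ : ℝ × ℝ → ℝ} (h1 : Continuous φ) (h2 : Continuous ψ) :
    II (fun z => φ z + ψ z) = II φ + II ψ := by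
  rw [II, II, II, ← intervalIntegral.integral_add ((c_par h1).intervalIntegrable _ _)
    ((c_par h2).intervalIntegrable _ _)]
  congr 1
  ext x
  exact intervalIntegral.integral_add ((h1.comp (Continuous.prodMk_right x)).intervalIntegrable _ _)
    ((h2.comp (Continuous.prodMk_right x)).intervalIntegrable _ _)

theorem II_mul (c : ℝ) (φ : ℝ × ℝ → ℝ) : II (fun z => c * φ z) = c * II φ := by
  simp only [II, intervalIntegral.integral_const_mul]

theorem II_fst (φ : ℝ → ℝ) : II (fun z => φ z.1) = ∫ x in (0 : ℝ)..1, φ x := by simp [II]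

theorem II_nonneg {φ : ℝ × ℝ → ℝ} (h : ∀ x, ∀ y ∈ Icc (0 : ℝ) 1, 0 ≤ φ (x, y)) : 0 ≤ II φ :=
  intervalIntegral.integral_nonneg zero_le_one fun x _ =>
    intervalIntegral.integral_nonneg zero_le_one (h x)

def W (t : ℝ) : ℝ := t * (1 - t)

theorem cW : Continuous W := by unfold W; fun_prop

structure Sk extends Sk0 where
  qpos : ∀ y ∈ Ioo (0 : ℝ) 1, 0 < q y
  σne : ∀ᵐ u, σ u ≠ 0

namespace Sk
open Sk0
variable (K : Sk)

noncomputable def H : ℕ → ℝ → ℝ → ℝ
  | 0, _, z => z
  | n + 1, x, z => K.h (K.E x) (H n (K.E x) z)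

theorem cH (n : ℕ) : Continuous fun z : ℝ × ℝ => K.H n z.1 z.2 := by
  induction n with
  | zero => exact continuous_snd
  | succ n ih =>
    have hE := K.cE.comp (continuous_fst (X := ℝ) (Y := ℝ))
    exact K.ch.comp (hE.prodMk (ih.comp (hE.prodMk continuous_snd)))

theorem Hmono (n : ℕ) (x : ℝ) : StrictMono (K.H n x) := by
  induction n generalizing x with
  | zero => exact strictMono_id
  | succ n ih => exact (K.hmono _).comp (ih _)

theorem H0 (n : ℕ) (x : ℝ) : K.H n x 0 = 0 := by
  induction n generalizing x with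
  | zero => rfl
  | succ n ih => rw [H, ih, K.h0]

theorem H1 (n : ℕ) (x : ℝ) : K.H n x 1 = 1 := by
  induction n generalizing x with
  | zero => rfl
  | succ n ih => rw [H, ih, K.h1]

theorem H_int (n : ℕ) (x : ℝ) (a : ℤ) (z : ℝ) : K.H n (x + a) z = K.H n x z := by
  induction n generalizing x a with
  | zero => rfl
  | succ n ih =>
    have h1 := K.h_int (K.E x) (K.H n (K.E x) z) a 0
    have h2 := ih (K.E x) (2 * a)
    push_cast at h1 h2
    rw [H, H, K.E_int, h2]
    simpa using h1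

theorem H_mem (n : ℕ) (x : ℝ) {z : ℝ} (hz : z ∈ Icc (0 : ℝ) 1) : K.H n x z ∈ Icc (0 : ℝ) 1 :=
  ⟨by rw [← K.H0 n x]; exact (K.Hmono n x).monotone hz.1,
    by rw [← K.H1 n x]; exact (K.Hmono n x).monotone hz.2⟩

theorem H_F (n : ℕ) (x y : ℝ) : K.H n x (K.F^[n] (x, y)).2 = y := by
  induction n generalizing x y with
  | zero => rfl
  | succ n ih => rw [Function.iterate_succ_apply, H, F, ih, K.hk]

theorem F_fst (n : ℕ) (x y : ℝ) : (K.F^[n] (x, y)).1 = K.E^[n] x := by
  induction n generalizing x y with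
  | zero => rfl
  | succ n ih => rw [Function.iterate_succ_apply, Function.iterate_succ_apply, F, ih]

noncomputable def I (n : ℕ) : ℝ := II fun z => W (K.H n z.1 z.2)
noncomputable def V (n : ℕ) : ℝ := II fun z => K.σ z.1 ^ 2 * K.q (K.H n z.1 z.2) ^ 2

theorem var (u t : ℝ) : K.p u * W (K.h u t) + K.p (u + 1) * W (K.h (u + 1) t) +
    K.σ u ^ 2 * K.q t ^ 2 ≤ W t := by
  have h1 := K.pos u
  have h2 := K.pos (u + 1)
  have h3 := K.lt1 u
  have e : K.p u * W (K.h u t) + K.p (u + 1) * W (K.h (u + 1) t) =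
      W t - K.σ u ^ 2 * K.q t ^ 2 * ((K.p u)⁻¹ + (K.p (u + 1))⁻¹) := by
    simp only [W, h, τ, K.σper]
    have h4 : K.p (u + 1) = 1 - K.p u := K.per u
    field_simp
    rw [h4]; ring
  have h5 : 1 ≤ (K.p u)⁻¹ := (one_le_inv₀ h1).2 h3.le
  have h6 : 0 ≤ (K.p (u + 1))⁻¹ := by positivity
  rw [e]
  nlinarith [mul_nonneg (sq_nonneg (K.σ u)) (sq_nonneg (K.q t))]

theorem I_succ (n : ℕ) : K.I (n + 1) ≤ K.I n - K.V n := by
  have c0 := K.cH n
  have c1 : Continuous fun z : ℝ × ℝ => W (K.h z.1 (K.H n z.1 z.2)) :=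
    cW.comp (K.ch.comp (continuous_fst.prodMk c0))
  have c2 : Continuous fun z : ℝ × ℝ => W (K.h (z.1 + 1) (K.H n z.1 z.2)) :=
    cW.comp (K.ch.comp ((continuous_fst.add continuous_const).prodMk c0))
  obtain ⟨C, hC⟩ := (isCompact_Icc (a := (0 : ℝ)) (b := 2)).exists_bound_of_continuousOn
    (c_par c1).continuousOn
  have h1 := K.dual (c_par c1).measurable hC
  have cp := K.cp
  have cσ := K.cσ
  have cq := K.cq
  have h2 : K.I (n + 1) = II (fun z => K.p z.1 * W (K.h z.1 (K.H n z.1 z.2))) +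
      II (fun z => K.p (z.1 + 1) * W (K.h (z.1 + 1) (K.H n z.1 z.2))) := by
    refine h1.trans ?_
    rw [II, II, ← intervalIntegral.integral_add
      ((c_par (φ := fun z => K.p z.1 * W (K.h z.1 (K.H n z.1 z.2)))
        (by fun_prop)).intervalIntegrable _ _)
      ((c_par (φ := fun z => K.p (z.1 + 1) * W (K.h (z.1 + 1) (K.H n z.1 z.2)))
        (by fun_prop)).intervalIntegrable _ _)]
    congr 1
    ext u
    have h3 := K.H_int n u 1
    push_cast at h3
    simp only [intervalIntegral.integral_const_mul, h3]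
  rw [le_sub_iff_add_le, h2, V, ← II_add (by fun_prop) (by fun_prop),
    ← II_add (by fun_prop) (by fun_prop)]
  exact II_mono (by fun_prop) (cW.comp c0) fun x y _ => K.var _ _

theorem I_nonneg (n : ℕ) : 0 ≤ K.I n := II_nonneg fun x y hy =>
  mul_nonneg (K.H_mem n x hy).1 (sub_nonneg.2 (K.H_mem n x hy).2)

theorem V_zero : Tendsto K.V atTop (𝓝 0) :=
  seq_dec K.I K.V K.I_nonneg (fun _ => II_nonneg fun _ _ _ => by positivity) K.I_succ

theorem W_q {ε : ℝ} (hε : 0 < ε) : ∃ C, 0 ≤ C ∧ ∀ t ∈ Icc (0 : ℝ) 1, W t ≤ ε + C * K.q t ^ 2 := by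
  by_cases hne : (Icc ε (1 - ε)).Nonempty
  · obtain ⟨x, hx, hmin⟩ := isCompact_Icc.exists_isMinOn hne K.cq.continuousOn
    have h0 : 0 < K.q x := K.qpos x ⟨by linarith [hx.1], by linarith [hx.2]⟩
    refine ⟨(K.q x ^ 2)⁻¹, by positivity, fun t ht => ?_⟩
    have h1 : 0 ≤ (K.q x ^ 2)⁻¹ * K.q t ^ 2 := by positivity
    by_cases h2 : t ∈ Icc ε (1 - ε)
    · have h3 : K.q x ≤ K.q t := hmin h2
      have h4 : 1 ≤ (K.q x ^ 2)⁻¹ * K.q t ^ 2 := by
        rw [le_inv_mul_iff₀ (by positivity)]; nlinarith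
      rw [W]; nlinarith [ht.1, ht.2]
    · rw [mem_Icc, not_and_or] at h2
      rw [W]
      rcases h2 with h2 | h2 <;> nlinarith [ht.1, ht.2]
  · refine ⟨0, le_rfl, fun t ht => ?_⟩
    rw [nonempty_Icc] at hne
    rw [W]; nlinarith [sq_nonneg (t - 1 / 2)]

theorem σ_lim : Tendsto (fun N : ℕ => ∫ u in (0 : ℝ)..1, (1 + N * K.σ u ^ 2)⁻¹) atTop (𝓝 0) := by
  have cσ := K.cσ
  have := intervalIntegral.tendsto_integral_filter_of_dominated_convergence (μ := volume)
    (a := (0 : ℝ)) (b := 1) (l := atTop) (F := fun (N : ℕ) u => (1 + N * K.σ u ^ 2)⁻¹)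
    (f := fun _ => 0) (fun _ => 1)
    (Eventually.of_forall fun N => (by fun_prop : Measurable _).aestronglyMeasurable)
    (Eventually.of_forall fun N => Eventually.of_forall fun u _ => by
      rw [Real.norm_eq_abs, abs_of_pos (by positivity)]
      exact inv_le_one_of_one_le₀ (le_add_of_nonneg_right (by positivity)))
    (by simp) (by
      filter_upwards [K.σne] with u hu _
      refine tendsto_inv_atTop_zero.comp (tendsto_atTop_add_const_left _ _ ?_)
      exact tendsto_natCast_atTop_atTop.atTop_mul_const (by positivity))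
  simpa using this

theorem I_zero : Tendsto K.I atTop (𝓝 0) := by
  rw [Metric.tendsto_atTop]
  intro ε hε
  obtain ⟨C, C0, hC⟩ := K.W_q (ε := ε / 3) (by positivity)
  obtain ⟨N, hN⟩ := (K.σ_lim.eventually (gt_mem_nhds (show 0 < ε / 3 by positivity))).exists
  have h1 : Tendsto (fun n => C * N * K.V n) atTop (𝓝 0) := by
    simpa using K.V_zero.const_mul (C * N)
  obtain ⟨n0, hn0⟩ := eventually_atTop.1 (h1.eventually (gt_mem_nhds (show 0 < ε / 3 by positivity)))
  refine ⟨n0, fun n hn => ?_⟩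
  rw [Real.dist_eq, sub_zero, abs_of_nonneg (K.I_nonneg n)]
  have c0 := K.cH n
  have cσ := K.cσ
  have cq := K.cq
  have c1 : Continuous fun u => (1 + N * K.σ u ^ 2)⁻¹ :=
    Continuous.inv₀ (by fun_prop) fun u => by positivity
  have c2 : Continuous fun z : ℝ × ℝ => ε / 3 + (1 + N * K.σ z.1 ^ 2)⁻¹ :=
    continuous_const.add (c1.comp continuous_fst)
  have h2 : K.I n ≤ II (fun z => (ε / 3 + (1 + N * K.σ z.1 ^ 2)⁻¹) +
      C * N * (K.σ z.1 ^ 2 * K.q (K.H n z.1 z.2) ^ 2)) := by
    refine II_mono (cW.comp c0) (c2.add (by fun_prop)) fun x y hy => ?_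
    have ht := K.H_mem n x hy
    have h3 := hC _ ht
    simp only
    generalize K.H n x y = t at ht h3
    have h4 : W t ≤ 1 := by rw [W]; nlinarith [ht.1, ht.2]
    set s := (N : ℝ) * K.σ x ^ 2 with hs
    have s0 : 0 ≤ s := by positivity
    have h5 : C * N * (K.σ x ^ 2 * K.q t ^ 2) = s * (C * K.q t ^ 2) := by rw [hs]; ring
    rw [h5]
    have h6 : 0 ≤ C * K.q t ^ 2 := by positivity
    have h7 : (1 + s)⁻¹ * (1 + s) = 1 := inv_mul_cancel₀ (by positivity)
    have h8 : 0 < (1 + s)⁻¹ := by positivity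
    have h9 : (1 + s)⁻¹ ≤ 1 := inv_le_one_of_one_le₀ (by linarith)
    set r := (1 + s)⁻¹
    have h10 : W t - ε / 3 = r * (W t - ε / 3) + r * s * (W t - ε / 3) := by
      have : r * (W t - ε / 3) + r * s * (W t - ε / 3) = r * (1 + s) * (W t - ε / 3) := by ring
      rw [this, h7, one_mul]
    have h11 : r * (W t - ε / 3) ≤ r := by nlinarith
    have h12 : r * s * (W t - ε / 3) ≤ r * s * (C * K.q t ^ 2) :=
      mul_le_mul_of_nonneg_left (by linarith) (by positivity)
    have h13 : r * s * (C * K.q t ^ 2) ≤ s * (C * K.q t ^ 2) := by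
      rw [mul_assoc]; exact mul_le_of_le_one_left (by positivity) h9
    linarith
  rw [II_add c2 (by fun_prop), II_mul,
    II_fst fun u => ε / 3 + (1 + N * K.σ u ^ 2)⁻¹,
    intervalIntegral.integral_add (by simp) (c1.intervalIntegrable _ _)] at h2
  have h3 := hn0 n hn
  simp only [intervalIntegral.integral_const, sub_zero, smul_eq_mul, one_mul] at h2
  rw [V] at h3
  linarith

theorem gap (n : ℕ) (x : ℝ) {y y' : ℝ} (h0 : 0 < y) (h1 : y ≤ y') (h2 : y' < 1) :
    y * (1 - y') * |(K.F^[n] (x, y)).2 - (K.F^[n] (x, y')).2| ≤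
      ∫ z in (0 : ℝ)..1, W (K.H n x z) := by
  have e1 := K.H_F n x y
  have e2 := K.H_F n x y'
  generalize (K.F^[n] (x, y)).2 = g at e1
  generalize (K.F^[n] (x, y')).2 = g' at e2
  have hm := K.Hmono n x
  have a1 : 0 ≤ g := hm.le_iff_le.1 (by rw [K.H0, e1]; exact h0.le)
  have a2 : g ≤ g' := hm.le_iff_le.1 (by rw [e1, e2]; exact h1)
  have a3 : g' ≤ 1 := hm.le_iff_le.1 (by rw [K.H1, e2]; exact h2.le)
  have c : Continuous fun z => W (K.H n x z) := cW.comp ((K.cH n).comp (Continuous.prodMk_right x))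
  rw [abs_sub_comm, abs_of_nonneg (by linarith)]
  calc y * (1 - y') * (g' - g) = ∫ _ in g..g', y * (1 - y') := by
        rw [intervalIntegral.integral_const, smul_eq_mul, mul_comm]
    _ ≤ ∫ z in g..g', W (K.H n x z) := by
      refine intervalIntegral.integral_mono_on a2 (by simp) (c.intervalIntegrable _ _) fun z hz => ?_
      have b1 : y ≤ K.H n x z := by rw [← e1]; exact hm.monotone hz.1
      have b2 : K.H n x z ≤ y' := by rw [← e2]; exact hm.monotone hz.2
      exact mul_le_mul b1 (by linarith) (by linarith) (by linarith)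
    _ ≤ _ := by
      refine intervalIntegral.integral_mono_interval a1 a2 a3 ?_ (c.intervalIntegrable _ _)
      refine (ae_restrict_iff' measurableSet_Ioc).2 (Eventually.of_forall fun z hz => ?_)
      have := K.H_mem n x (Ioc_subset_Icc_self hz)
      exact mul_nonneg this.1 (sub_nonneg.2 this.2)

theorem cFn (n : ℕ) (y : ℝ) : Continuous fun x => K.F^[n] (x, y) :=
  (K.cF.iterate n).comp (Continuous.prodMk_left y)

theorem sync {y y' : ℝ} (hy : y ∈ Ioo (0 : ℝ) 1) (hy' : y' ∈ Ioo (0 : ℝ) 1) :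
    Tendsto (fun n => ∫ x in (0 : ℝ)..1, |(K.F^[n] (x, y)).2 - (K.F^[n] (x, y')).2|) atTop
      (𝓝 0) := by
  wlog h : y ≤ y' generalizing y y'
  · simpa only [abs_sub_comm] using this hy' hy (le_of_not_ge h)
  have c0 : 0 < y * (1 - y') := mul_pos hy.1 (by linarith [hy'.2])
  have h1 := K.I_zero.const_mul (y * (1 - y'))⁻¹
  rw [mul_zero] at h1
  refine squeeze_zero (fun n => intervalIntegral.integral_nonneg zero_le_one fun _ _ => abs_nonneg _)
    (fun n => ?_) h1
  rw [le_inv_mul_iff₀ c0, ← intervalIntegral.integral_const_mul]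
  have := K.cFn n y
  have := K.cFn n y'
  exact intervalIntegral.integral_mono_on zero_le_one
    ((by fun_prop : Continuous _).intervalIntegrable _ _)
    ((c_par (cW.comp (K.cH n))).intervalIntegrable _ _) fun x _ => K.gap n x hy.1 h hy'.2

theorem rep_pos : ∀ᵐ y : T, rep y ∈ Ioo (0 : ℝ) 1 := by
  refine ae_T (Eventually.of_forall fun x hx => ?_)
  refine ⟨lt_of_le_of_ne (rep_mem _).1 fun h => ?_, (rep_mem _).2⟩
  obtain ⟨k, hk⟩ := rep_coe x
  rw [← h] at hk
  have h4 : (k : ℝ) < 0 := by linarith [hx.1]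
  have h5 : (-1 : ℝ) < k := by linarith [hx.2]
  have : k < 0 := by exact_mod_cast h4
  have : -1 < k := by exact_mod_cast h5
  omega

theorem sync2 (ψ : BoundedContinuousFunction (T × T) ℝ) {y y' : T} (hy : rep y ∈ Ioo (0 : ℝ) 1)
    (hy' : rep y' ∈ Ioo (0 : ℝ) 1) :
    Tendsto (fun n => ∫ x : T, |ψ (K.f^[n] (x, y)) - ψ (K.f^[n] (x, y'))|) atTop (𝓝 0) := by
  have u1 : UniformContinuous fun x : ℝ => (x : T) :=
    uniformContinuous_addMonoidHom_of_continuous (f := QuotientAddGroup.mk' _)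
      (AddCircle.continuous_mk' 1)
  have u2 : UniformContinuous fun z => ψ (π z) :=
    (CompactSpace.uniformContinuous_of_continuous ψ.continuous).comp (u1.prodMap u1)
  rw [Metric.tendsto_atTop]
  intro ε hε
  obtain ⟨δ, hδ, hd⟩ := Metric.uniformContinuous_iff.1 u2 (ε / 2) (by positivity)
  have h1 := (K.sync hy hy').const_mul (2 * ‖ψ‖ / δ)
  rw [mul_zero] at h1
  obtain ⟨N, hN⟩ := eventually_atTop.1 (h1.eventually (gt_mem_nhds (show 0 < ε / 2 by positivity)))
  refine ⟨N, fun n hn => ?_⟩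
  rw [Real.dist_eq, sub_zero, abs_of_nonneg (integral_nonneg fun _ => abs_nonneg _), intT]
  have e : ∀ (x : ℝ) (y : T), K.f^[n] ((x : T), y) = π (K.F^[n] (x, rep y)) := fun x y => by
    rw [← K.fn_π, π, coe_rep]
  simp only [e]
  have c1 := K.cFn n (rep y)
  have c2 := K.cFn n (rep y')
  have c3 := u2.continuous
  have h2 : ∫ x in (0 : ℝ)..1, |ψ (π (K.F^[n] (x, rep y))) - ψ (π (K.F^[n] (x, rep y')))| ≤
      ∫ x in (0 : ℝ)..1, (ε / 2 + 2 * ‖ψ‖ / δ *
        |(K.F^[n] (x, rep y)).2 - (K.F^[n] (x, rep y')).2|) := by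
    refine intervalIntegral.integral_mono_on zero_le_one
      (((c3.comp c1).sub (c3.comp c2)).abs.intervalIntegrable _ _)
      ((by fun_prop : Continuous _).intervalIntegrable _ _) fun x _ => ?_
    have e1 := K.F_fst n x (rep y)
    have e2 := K.F_fst n x (rep y')
    generalize K.F^[n] (x, rep y) = a at e1
    generalize K.F^[n] (x, rep y') = b at e2
    have n0 := norm_nonneg ψ
    by_cases h : |a.2 - b.2| < δ
    · have := hd (a := a) (b := b) (by
        rw [Prod.dist_eq, e1, e2, dist_self, Real.dist_eq]; exact max_lt hδ h)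
      rw [Real.dist_eq] at this
      have : 0 ≤ 2 * ‖ψ‖ / δ * |a.2 - b.2| := by positivity
      linarith
    · have h3 : 2 * ‖ψ‖ / δ * δ ≤ 2 * ‖ψ‖ / δ * |a.2 - b.2| :=
        mul_le_mul_of_nonneg_left (not_lt.1 h) (by positivity)
      rw [div_mul_cancel₀ _ hδ.ne'] at h3
      have := ψ.dist_le_two_norm (π a) (π b)
      rw [Real.dist_eq] at this
      linarith
  rw [intervalIntegral.integral_add (by simp)
    ((by fun_prop : Continuous _).intervalIntegrable _ _), intervalIntegral.integral_const_mul] at h2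
  simp only [intervalIntegral.integral_const, sub_zero, smul_eq_mul, one_mul] at h2
  linarith [hN n hn]

theorem f_fst (n : ℕ) (z : T × T) : (K.f^[n] z).1 = K.e^[n] z.1 := by
  induction n generalizing z with
  | zero => rfl
  | succ n ih => rw [Function.iterate_succ_apply, Function.iterate_succ_apply, ih]; rfl

theorem f_erg {m : ℕ} (hm : 0 < m) : Ergodic K.f^[m] volume := by
  refine ⟨K.f_mp.iterate m, ⟨fun A hA hi => ?_⟩⟩
  set φ : T × T → ℝ := A.indicator 1 with hφ
  have hφm : Measurable φ := measurable_one.indicator hA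
  have inv : ∀ k z, φ (K.f^[m * k] z) = φ z := by
    intro k z
    have : (K.f^[m])^[k] ⁻¹' A = A := Function.IsFixedPt.preimage_iterate hi k
    have h2 : z ∈ A ↔ K.f^[m * k] z ∈ A := by
      conv_lhs => rw [← this]
      rw [mem_preimage, Function.iterate_mul]
    by_cases h : z ∈ A
    · simp [hφ, h, h2.1 h]
    · simp [hφ, h, mt h2.2 h]
  let μ : Measure ((T × T) × T) := (volume : Measure (T × T)).prod volume
  have P1 : MeasurePreserving (fun ω : (T × T) × T => (ω.2, ω.1.1)) μ volume :=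
    Measure.measurePreserving_swap.comp
      ((measurePreserving_fst (μ := (volume : Measure T)) (ν := (volume : Measure T))).prod
        (MeasurePreserving.id volume))
  have P2 : MeasurePreserving (fun ω : (T × T) × T => (ω.2, ω.1.2)) μ volume :=
    Measure.measurePreserving_swap.comp
      ((measurePreserving_snd (μ := (volume : Measure T)) (ν := (volume : Measure T))).prod
        (MeasurePreserving.id volume))
  have iφ : Integrable φ := int_bdd hφm (ind_abs A)
  have iZ : Integrable (fun ω : (T × T) × T => |φ (ω.2, ω.1.1) - φ (ω.2, ω.1.2)|) μ :=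
    ((P1.integrable_comp_of_integrable iφ).sub (P2.integrable_comp_of_integrable iφ)).abs
  have hZ : ∫ ω, |φ (ω.2, ω.1.1) - φ (ω.2, ω.1.2)| ∂μ ≤ 0 := by
    refine le_of_forall_pos_le_add fun ε hε => ?_
    obtain ⟨ψ, hψ, iψ⟩ := iφ.exists_boundedContinuous_integral_sub_le (ε := ε / 2) (by positivity)
    have mψ : Measurable ψ := ψ.continuous.measurable
    have iY : ∀ n, Integrable (fun ω : (T × T) × T =>
        |ψ (K.f^[n] (ω.2, ω.1.1)) - ψ (K.f^[n] (ω.2, ω.1.2))|) μ := fun n =>
      ((((K.f_mp.iterate n).comp P1).integrable_comp_of_integrable iψ).sub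
        (((K.f_mp.iterate n).comp P2).integrable_comp_of_integrable iψ)).abs
    have hY : Tendsto (fun n => ∫ ω, |ψ (K.f^[n] (ω.2, ω.1.1)) - ψ (K.f^[n] (ω.2, ω.1.2))| ∂μ)
        atTop (𝓝 0) := by
      simp only [μ, integral_prod _ (iY _)]
      have := tendsto_integral_of_dominated_convergence (μ := (volume : Measure (T × T)))
        (F := fun n w => ∫ x : T, |ψ (K.f^[n] (x, w.1)) - ψ (K.f^[n] (x, w.2))|) (f := fun _ => 0)
        (fun _ => 2 * ‖ψ‖) (fun n => (iY n).integral_prod_left.aestronglyMeasurable)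
        (integrable_const _)
        (fun n => Eventually.of_forall fun w => by
          have := norm_integral_le_of_norm_le_const (μ := (volume : Measure T)) (C := 2 * ‖ψ‖)
            (f := fun x => |ψ (K.f^[n] (x, w.1)) - ψ (K.f^[n] (x, w.2))|)
            (Eventually.of_forall fun x => by
              rw [Real.norm_eq_abs, abs_abs, ← Real.dist_eq]; exact ψ.dist_le_two_norm _ _)
          simpa using this)
        (by
          filter_upwards [Measure.quasiMeasurePreserving_fst.ae rep_pos,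
            Measure.quasiMeasurePreserving_snd.ae rep_pos] with w h1 h2
          exact K.sync2 ψ h1 h2)
      simpa using this
    have hmn : Tendsto (fun n => m * n) atTop atTop := tendsto_id.const_mul_atTop' hm
    have i0 : Integrable fun z => ‖φ z - ψ z‖ := (iφ.sub iψ).norm
    have hb : ∀ k, ∫ ω, |φ (ω.2, ω.1.1) - φ (ω.2, ω.1.2)| ∂μ ≤ ε +
        ∫ ω, |ψ (K.f^[m * k] (ω.2, ω.1.1)) - ψ (K.f^[m * k] (ω.2, ω.1.2))| ∂μ := by
      intro k
      have Q1 := (K.f_mp.iterate (m * k)).comp P1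
      have Q2 := (K.f_mp.iterate (m * k)).comp P2
      have j1 := Q1.integrable_comp_of_integrable i0
      have j2 := Q2.integrable_comp_of_integrable i0
      have r1 := integral_map (μ := μ) Q1.measurable.aemeasurable
        (f := fun z => ‖φ z - ψ z‖) (hφm.sub mψ).norm.aestronglyMeasurable
      have r2 := integral_map (μ := μ) Q2.measurable.aemeasurable
        (f := fun z => ‖φ z - ψ z‖) (hφm.sub mψ).norm.aestronglyMeasurable
      rw [Q1.map_eq] at r1
      rw [Q2.map_eq] at r2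
      have := integral_mono iZ ((j1.add j2).add (iY (m * k))) fun ω => by
        simp only [Pi.add_apply, Function.comp, inv, Real.norm_eq_abs]
        generalize φ (ω.2, ω.1.1) = a
        generalize φ (ω.2, ω.1.2) = b
        generalize ψ (K.f^[m * k] (ω.2, ω.1.1)) = c
        generalize ψ (K.f^[m * k] (ω.2, ω.1.2)) = d
        have := abs_add_three (a - c) (d - b) (c - d)
        rw [show a - c + (d - b) + (c - d) = a - b by ring, abs_sub_comm d b] at this
        exact this
      rw [integral_add' (j1.add j2) (iY _), integral_add' j1 j2] at this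
      simp only [Function.comp] at this r1 r2
      rw [← r1, ← r2] at this
      linarith
    have := ge_of_tendsto' ((hY.comp hmn).const_add ε) hb
    linarith
  have h1 := (integral_eq_zero_iff_of_nonneg (fun _ => abs_nonneg _) iZ).1
    (le_antisymm hZ (integral_nonneg fun _ => abs_nonneg _))
  obtain ⟨y, hy⟩ := (Measure.ae_ae_of_ae_prod (Measure.ae_ae_of_ae_prod h1)).exists
  have m0 : Measurable fun x => φ (x, y) := hφm.comp measurable_prodMk_right
  have hs : MeasurableSet {z : T × T | φ z = φ (z.1, y)} :=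
    measurableSet_eq_fun hφm (m0.comp measurable_fst)
  have h2 : ∀ᵐ z : T × T, φ z = φ (z.1, y) := by
    refine (Measure.ae_prod_iff_ae_ae hs).2 ?_
    refine (Measure.ae_ae_comm (p := fun x y' => φ (x, y') = φ (x, y)) hs).2 ?_
    filter_upwards [hy] with y' hy'
    filter_upwards [hy'] with x hx
    have : |φ (x, y) - φ (x, y')| = 0 := hx
    rw [abs_eq_zero] at this
    linarith
  have h3 : ∀ᵐ z : T × T, φ (K.e^[m] z.1, y) = φ (z.1, y) := by
    filter_upwards [h2, (K.f_mp.iterate m).quasiMeasurePreserving.ae h2] with z a b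
    have := inv 1 z
    rw [mul_one] at this
    rw [← K.f_fst, ← b, this, a]
  obtain ⟨c, hc⟩ := (K.e_erg hm).ae_eq_const_of_ae_eq_comp_ae m0.aestronglyMeasurable (by
    filter_upwards [Measure.ae_ae_of_ae_prod h3] with x hx
    exact hx.exists.choose_spec)
  refine ec_of_ind (c := c) ?_
  filter_upwards [h2, Measure.quasiMeasurePreserving_fst.ae hc] with z a b
  exact a.trans b

theorem goal' (hle : K.ent ≤ 2 * K.lam) {m : ℕ} (hm : 0 < m) : Goal (m * K.lam) (m * K.ent) :=
  K.goal (fun _ hm => K.f_erg hm) hle hm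

end Sk
end Pool.Agent.H.Flex
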