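import Mathlib
import Pool.Agent.H.MP_0e2194_an.Sync

set_option autoImplicit false
open MeasureTheory Set Filter Topology Real

namespace Pool.Agent.H.Flex

theorem ent_bd {ε : ℝ} (hε : 0 < ε) :
    ∃ C, 0 < C ∧ ∀ t : ℝ, |t| ≤ 1 / 2 → binEntropy (1 / 2 + t) ≤ ε + C * (1 / 4 - t ^ 2) := by
  have hc : Continuous fun t : ℝ => binEntropy (1 / 2 + t) :=
    binEntropy_continuous.comp (by fun_prop)
  have hK : IsCompact (Icc (-(1 / 2) : ℝ) (1 / 2) ∩ {t | ε ≤ binEntropy (1 / 2 + t)}) :=
    isCompact_Icc.inter_right (isClosed_le continuous_const hc)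
  have g0 : ∀ t : ℝ, |t| ≤ 1 / 2 → 0 ≤ 1 / 4 - t ^ 2 := fun t ht => by
    have := abs_le.1 ht; nlinarith
  rcases (Icc (-(1 / 2) : ℝ) (1 / 2) ∩ {t | ε ≤ binEntropy (1 / 2 + t)}).eq_empty_or_nonempty with
    h | h
  · refine ⟨1, one_pos, fun t ht => ?_⟩
    have : ¬ ε ≤ binEntropy (1 / 2 + t) := fun h2 =>
      (h ▸ (⟨abs_le.1 ht, h2⟩ : t ∈ _ ∩ {t | ε ≤ binEntropy (1 / 2 + t)}) : t ∈ (∅ : Set ℝ))
    linarith [g0 t ht]
  · obtain ⟨x, hx, hmin⟩ := hK.exists_isMinOn h (f := fun t => 1 / 4 - t ^ 2) (by fun_prop)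
    have x0 : 0 < 1 / 4 - x ^ 2 := by
      have h1 : x ≠ 1 / 2 := fun e => by
        have := hx.2; rw [mem_setOf_eq, e] at this; norm_num at this; linarith
      have h2 : x ≠ -(1 / 2) := fun e => by
        have := hx.2; rw [mem_setOf_eq, e] at this; norm_num at this; linarith
      have h3 := lt_of_le_of_ne hx.1.2 h1
      have h4 := lt_of_le_of_ne hx.1.1 h2.symm
      nlinarith
    refine ⟨(1 / 4 - x ^ 2)⁻¹, by positivity, fun t ht => ?_⟩
    by_cases h2 : ε ≤ binEntropy (1 / 2 + t)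
    · have h3 : 1 / 4 - x ^ 2 ≤ 1 / 4 - t ^ 2 := hmin ⟨abs_le.1 ht, h2⟩
      have h4 : 1 ≤ (1 / 4 - x ^ 2)⁻¹ * (1 / 4 - t ^ 2) := by
        rw [le_inv_mul_iff₀ x0]; linarith
      have h5 := binEntropy_le_log_two (p := 1 / 2 + t)
      linarith [log_two_lt_d9]
    · have : 0 ≤ (1 / 4 - x ^ 2)⁻¹ * (1 / 4 - t ^ 2) := mul_nonneg (by positivity) (g0 t ht)
      linarith

noncomputable def aa (x : ℝ) : ℝ := arctan x / Real.pi

theorem aa_sm : ContDiff ℝ (⊤ : ℕ∞) aa := contDiff_arctan.div_const _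

theorem aa_neg (x : ℝ) : aa (-x) = - aa x := by rw [aa, aa, arctan_neg, neg_div]

theorem aa_mono : StrictMono aa := fun _ _ h =>
  div_lt_div_of_pos_right (arctan_strictMono h) pi_pos

theorem aa_lt (x : ℝ) : |aa x| < 1 / 2 := by
  rw [aa, abs_div, abs_of_pos pi_pos, div_lt_iff₀ pi_pos, abs_lt]
  constructor <;> linarith [arctan_lt_pi_div_two x, neg_pi_div_two_lt_arctan x]

theorem aa0 : aa 0 = 0 := by simp [aa]

theorem aa_sq (x : ℝ) : aa x ^ 2 = aa |x| ^ 2 := by
  rcases abs_cases x with h | h <;> simp [h.1, aa_neg]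

theorem aa_lim {x : ℝ} (hx : x ≠ 0) :
    Tendsto (fun n : ℕ => 1 / 4 - aa (n * x) ^ 2) atTop (𝓝 0) := by
  have h1 : Tendsto (fun n : ℕ => (n : ℝ) * |x|) atTop atTop :=
    tendsto_natCast_atTop_atTop.atTop_mul_const (abs_pos.2 hx)
  have h2 := ((((tendsto_arctan_atTop.mono_right nhdsWithin_le_nhds).comp h1).div_const
    Real.pi).pow 2).const_sub (1 / 4)
  have h3 : 1 / 4 - (Real.pi / 2 / Real.pi) ^ 2 = 0 := by field_simp; norm_num
  rw [h3] at h2
  refine h2.congr fun n => ?_
  rw [aa_sq, abs_mul, Nat.abs_cast]; rfl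

theorem aa_anti (x : ℝ) : Antitone fun n : ℕ => 1 / 4 - aa (n * x) ^ 2 := by
  intro n m h
  have h1 : (n : ℝ) ≤ m := by exact_mod_cast h
  simp only
  rw [aa_sq, aa_sq (n * x), abs_mul, abs_mul, Nat.abs_cast, Nat.abs_cast]
  have h2 : aa (n * |x|) ≤ aa (m * |x|) :=
    aa_mono.monotone (mul_le_mul_of_nonneg_right h1 (abs_nonneg x))
  have h3 : 0 ≤ aa (n * |x|) := by rw [← aa0]; exact aa_mono.monotone (by positivity)
  nlinarith

theorem aa_int {g : ℝ → ℝ} (hg : Continuous g) (h : ∀ᵐ u, g u ≠ 0) :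
    Tendsto (fun n : ℕ => ∫ u in (0 : ℝ)..1, (1 / 4 - aa (n * g u) ^ 2)) atTop (𝓝 0) := by
  have ca := aa_sm.continuous
  have := intervalIntegral.tendsto_integral_filter_of_dominated_convergence (μ := volume)
    (a := (0 : ℝ)) (b := 1) (l := atTop) (F := fun (n : ℕ) u => 1 / 4 - aa (n * g u) ^ 2)
    (f := fun _ => 0) (fun _ => 1)
    (Eventually.of_forall fun N => (by fun_prop : Continuous _).aestronglyMeasurable)
    (Eventually.of_forall fun N => Eventually.of_forall fun u _ => by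
      have := abs_lt.1 (aa_lt (N * g u))
      rw [Real.norm_eq_abs, abs_le]; constructor <;> nlinarith)
    (by simp) (by
      filter_upwards [h] with u hu _
      exact aa_lim hu)
  simpa using this

theorem sin_ae : ∀ᵐ u : ℝ, sin (Real.pi * u) ≠ 0 := by
  refine measure_mono_null (t := range fun k : ℤ => (k : ℝ)) (fun u hu => ?_)
    ((countable_range _).measure_zero _)
  obtain ⟨k, hk⟩ := sin_eq_zero_iff.1 (not_not.1 hu)
  exact ⟨k, mul_right_cancel₀ pi_ne_zero (by rw [hk]; ring)⟩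

theorem cos_eq {x y : ℝ} (h : cos (2 * Real.pi * x) = cos (2 * Real.pi * y)) :
    ∃ k : ℤ, y = k + x ∨ y = k - x := by
  obtain ⟨k, hk⟩ := cos_eq_cos_iff.1 h
  have := two_pi_pos.ne'
  refine ⟨k, hk.imp (fun e => ?_) fun e => ?_⟩ <;>
    exact mul_left_cancel₀ this (by rw [e]; ring)

theorem cos_ae (b : ℝ) : ∀ᵐ y : ℝ, cos (2 * Real.pi * y) - b ≠ 0 := by
  by_cases h : ∃ x, cos (2 * Real.pi * x) = b
  · obtain ⟨x, rfl⟩ := h
    refine measure_mono_null
      (t := (range fun k : ℤ => (k : ℝ) + x) ∪ range fun k : ℤ => (k : ℝ) - x) (fun u hu => ?_)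
      (((countable_range _).union (countable_range _)).measure_zero _)
    obtain ⟨k, hk⟩ := cos_eq (sub_eq_zero.1 (not_not.1 hu)).symm
    exact hk.imp (fun e => ⟨k, e.symm⟩) fun e => ⟨k, e.symm⟩
  · exact Eventually.of_forall fun y e => h ⟨y, sub_eq_zero.1 e⟩

theorem dini {η : ℝ} (hη : 0 < η) : ∀ᶠ n : ℕ in atTop, ∀ b ∈ Icc (-1 : ℝ) 1,
    ∫ y in (0 : ℝ)..1, (1 / 4 - aa (n * (cos (2 * Real.pi * y) - b)) ^ 2) < η := by
  have ca := aa_sm.continuous
  have := Antitone.tendstoUniformlyOn_of_forall_tendsto (s := Icc (-1 : ℝ) 1) (f := fun _ => (0 : ℝ))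
    (F := fun (n : ℕ) b => ∫ y in (0 : ℝ)..1, (1 / 4 - aa (n * (cos (2 * Real.pi * y) - b)) ^ 2))
    isCompact_Icc (fun n => (by fun_prop : Continuous _).continuousOn)
    (fun b _ n m h => intervalIntegral.integral_mono_on zero_le_one
      ((by fun_prop : Continuous _).intervalIntegrable _ _)
      ((by fun_prop : Continuous _).intervalIntegrable _ _) fun y _ => aa_anti _ h)
    continuousOn_const (fun b _ => aa_int (by fun_prop) (cos_ae b))
  filter_upwards [Metric.tendstoUniformlyOn_iff.1 this η hη] with n hn b hb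
  have := hn b hb
  rw [Real.dist_eq, zero_sub, abs_neg] at this
  exact (le_abs_self _).trans_lt this

theorem three {x y z : ℝ} (h1 : x < y) (h2 : y < z) (h3 : z < x + 1)
    (e1 : cos (2 * Real.pi * x) = cos (2 * Real.pi * y))
    (e2 : cos (2 * Real.pi * x) = cos (2 * Real.pi * z)) : False := by
  have key : ∀ (k : ℤ) (t : ℝ), t = k → 0 < t → t < 1 → False := by
    rintro k t rfl a b
    have : 0 < k := by exact_mod_cast a
    have : k < 1 := by exact_mod_cast b
    omega
  obtain ⟨k, hk | hk⟩ := cos_eq e1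
  · exact key k (y - x) (by linarith) (by linarith) (by linarith)
  obtain ⟨l, hl | hl⟩ := cos_eq e2
  · exact key l (z - x) (by linarith) (by linarith) (by linarith)
  exact key (l - k) (z - y) (by push_cast; linarith) (by linarith) (by linarith)

/-- building the skew product from the two profiles -/
theorem mk_sk {σ R : ℝ → ℝ} (σs : ContDiff ℝ (⊤ : ℕ∞) σ) (Rs : ContDiff ℝ (⊤ : ℕ∞) R)
    (σp : ∀ u, σ (u + 1) = - σ u) (Rp : Function.Periodic R 1) (σb : ∀ u, |σ u| < 1)
    (Rb : ∀ y, |R y| ≤ 1 / 2) (σne : ∀ᵐ u, σ u ≠ 0)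
    (R3 : ∀ x y z, x < y → y < z → z < x + 1 → R x = R y → R x = R z → False) :
    ∃ K : Sk, K.lam = (∫ u in (0 : ℝ)..1, binEntropy (1 / 2 + σ u * ∫ y in (0 : ℝ)..1, R y)) ∧
      K.ent = ∫ u in (0 : ℝ)..1, ∫ y in (0 : ℝ)..1, binEntropy (1 / 2 + σ u * R y) := by
  set c := ∫ y in (0 : ℝ)..1, R y with hc
  have cb : |c| ≤ 1 / 2 := by
    simpa using intervalIntegral.norm_integral_le_of_norm_le_const (a := (0 : ℝ)) (b := 1)
      (f := R) fun y _ => Rb y
  have pos : ∀ u x, |x| ≤ 1 / 2 → 0 < 1 / 2 + σ u * x := fun u x hx => by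
    have h1 := neg_abs_le (σ u * x)
    rw [abs_mul] at h1
    nlinarith [σb u, abs_nonneg (σ u), abs_nonneg x]
  have cR := Rs.continuous
  let Q : ℝ → ℝ := fun y => ∫ t in (0 : ℝ)..y, (R t - c)
  have hQ : ∀ y, HasDerivAt Q (R y - c) y := fun y =>
    ((cR.sub continuous_const).integral_hasStrictDerivAt 0 y).hasDerivAt
  have Qs : ContDiff ℝ (⊤ : ℕ∞) Q := by
    rw [contDiff_infty_iff_deriv]
    refine ⟨fun u => (hQ u).differentiableAt, ?_⟩
    rw [show deriv Q = fun y => R y - c from funext fun u => (hQ u).deriv]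
    exact Rs.sub contDiff_const
  have Qp : Function.Periodic Q 1 := fun y => by
    have h1 : Function.Periodic (fun t => R t - c) 1 := fun t => by simp only [Rp t]
    have h2 := h1.intervalIntegral_add_eq y 0
    have i : ∀ a b, IntervalIntegrable (fun t => R t - c) volume a b := fun a b =>
      (cR.sub continuous_const).intervalIntegrable a b
    simp only [Q]
    have h3 : ∫ t in (0 : ℝ)..1, (R t - c) = 0 := by
      rw [intervalIntegral.integral_sub (cR.intervalIntegrable _ _) (by simp)]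
      simp [hc]
    rw [← intervalIntegral.integral_add_adjacent_intervals (i 0 y) (i y (y + 1)), h2, zero_add,
      h3, add_zero]
  obtain ⟨-, y0, hy0⟩ := per_bdd Qs.continuous one_pos Qp
  have crit : ∀ y, Q y = Q y0 → R y = c := fun y e => by
    have : IsLocalMin Q y := Eventually.of_forall fun z => by rw [e]; exact hy0 z
    exact sub_eq_zero.1 (this.hasDerivAt_eq_zero (hQ y))
  have dq : ∀ y, deriv (fun y => Q (y + y0) - Q y0) y = R (y + y0) - c := fun y =>
    (((hQ (y + y0)).comp_add_const y y0).sub_const _).deriv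
  refine ⟨{ p := fun u => 1 / 2 + σ u * c
            sm := by fun_prop
            per := fun u => by rw [σp]; ring
            pos := fun u => pos u c cb
            σ := σ
            q := fun y => Q (y + y0) - Q y0
            σs := σs
            qs := by fun_prop
            σper := σp
            qper := fun y => by rw [show y + 1 + y0 = y + y0 + 1 by ring, Qp]
            q0 := by simp
            qpos := fun y hy => ?_
            σne := σne
            Jpos := fun u y => ?_ }, rfl, ?_⟩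
  · rw [dq]
    have := pos u _ (Rb (y + y0))
    linarith
  · refine sub_pos.2 (lt_of_le_of_ne (hy0 _) fun e => ?_)
    obtain ⟨z, hz, hz0⟩ := exists_hasDerivAt_eq_zero (f := Q) (a := y0) (b := y + y0)
      (by linarith [hy.1]) Qs.continuous.continuousOn e fun x _ => hQ x
    refine R3 y0 z (y + y0) hz.1 hz.2 (by linarith [hy.2]) ?_ ?_
    · rw [crit y0 rfl]; linarith
    · rw [crit y0 rfl, crit _ e.symm]
  · simp only [Sk0.ent, Sk0.J, dq]
    congr 1
    ext u
    have h1 : Function.Periodic (fun y => binEntropy (1 / 2 + σ u * R y)) 1 := fun t => by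
      simp only [Rp t]
    have h2 := h1.intervalIntegral_add_eq y0 0
    rw [zero_add] at h2
    rw [← h2]
    have h3 := intervalIntegral.integral_comp_add_right (a := 0) (b := 1)
      (fun y => binEntropy (1 / 2 + σ u * R y)) y0
    rw [zero_add, add_comm 1 y0] at h3
    rw [← h3]
    congr 1
    ext y
    congr 1
    ring

theorem exists_sk {s l : ℝ} (h0 : 0 < s) (h1 : s < l) (h2 : l < log 2) :
    ∃ K : Sk, K.lam = l ∧ K.ent = s := by
  obtain ⟨C, C0, hC⟩ := ent_bd (ε := s / 4) (by positivity)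
  have hη : 0 < s / 4 / C := by positivity
  obtain ⟨n, ⟨hn1, hn2⟩, hn3⟩ := (((aa_int (g := fun u => sin (Real.pi * u)) (by fun_prop)
    sin_ae).eventually (gt_mem_nhds hη)).and (dini hη) |>.and (eventually_gt_atTop 0)).exists
  have n0 : (0 : ℝ) < n := by exact_mod_cast hn3
  have as := aa_sm
  have ca := aa_sm.continuous
  have cb := binEntropy_continuous
  set σ : ℝ → ℝ := fun u => 2 * aa (n * sin (Real.pi * u)) with hσ
  set R : ℝ → ℝ → ℝ := fun b y => aa (n * (cos (2 * Real.pi * y) - b)) with hR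
  have σs : ContDiff ℝ (⊤ : ℕ∞) σ := by fun_prop
  have cσ := σs.continuous
  have σb : ∀ u, |σ u| < 1 := fun u => by
    rw [hσ, abs_mul, abs_two]; linarith [aa_lt (n * sin (Real.pi * u))]
  set c : ℝ → ℝ := fun b => ∫ y in (0 : ℝ)..1, R b y with hc
  have cc : Continuous c := by fun_prop
  have cRb : ∀ b, Continuous (R b) := fun b => by fun_prop
  have bd : ∀ u x, |x| ≤ 1 / 2 → binEntropy (1 / 2 + σ u * x) ≤
      s / 4 + C * (1 / 4 - aa (n * sin (Real.pi * u)) ^ 2) + C * (1 / 4 - x ^ 2) := by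
    intro u x hx
    have a1 := (σb u).le
    have a2 := hC (σ u * x) (by rw [abs_mul]; nlinarith [abs_nonneg (σ u), abs_nonneg x])
    have a3 : 1 / 4 - (σ u * x) ^ 2 ≤
        (1 / 4 - aa (n * sin (Real.pi * u)) ^ 2) + (1 / 4 - x ^ 2) := by
      have b1 := abs_lt.1 (aa_lt (n * sin (Real.pi * u)))
      have b2 := abs_le.1 hx
      simp only [hσ]
      generalize aa (n * sin (Real.pi * u)) = a at b1
      have b3 : 0 ≤ 1 / 4 - a ^ 2 := by nlinarith
      have b4 : 0 ≤ 1 / 4 - x ^ 2 := by nlinarith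
      nlinarith [mul_nonneg b3 b4]
    nlinarith
  have hC1 : C * ∫ u in (0 : ℝ)..1, (1 / 4 - aa (n * sin (Real.pi * u)) ^ 2) < s / 4 := by
    rwa [← lt_div_iff₀' C0]
  have hC2 : ∀ b ∈ Icc (-1 : ℝ) 1, C * ∫ y in (0 : ℝ)..1, (1 / 4 - R b y ^ 2) < s / 4 :=
    fun b hb => by rw [← lt_div_iff₀' C0]; exact hn2 b hb
  have cbd : ∀ b, |c b| ≤ 1 / 2 := fun b => by
    simpa using intervalIntegral.norm_integral_le_of_norm_le_const (a := (0 : ℝ)) (b := 1)
      (f := R b) fun y _ => (aa_lt _).le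
  have Rn : ∀ y, 0 ≤ R (-1) y := fun y => by
    rw [← aa0]; exact aa_mono.monotone (mul_nonneg n0.le (by linarith [neg_one_le_cos (2 * Real.pi * y)]))
  have c1 : 0 ≤ c (-1) := intervalIntegral.integral_nonneg zero_le_one fun y _ => Rn y
  have c2 : c 1 ≤ 0 := by
    have : ∫ y in (0 : ℝ)..1, R 1 y ≤ ∫ _ in (0 : ℝ)..1, (0 : ℝ) :=
      intervalIntegral.integral_mono_on zero_le_one ((cRb 1).intervalIntegrable _ _) (by simp)
        fun y _ => by
          rw [← aa0]
          exact aa_mono.monotone (mul_nonpos_of_nonneg_of_nonpos n0.le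
            (by linarith [cos_le_one (2 * Real.pi * y)]))
    simpa using this
  obtain ⟨b0, hb0, e0⟩ := intermediate_value_Icc' (show (-1 : ℝ) ≤ 1 by norm_num) cc.continuousOn
    ⟨c2, c1⟩
  set Λ : ℝ → ℝ := fun b => ∫ u in (0 : ℝ)..1, binEntropy (1 / 2 + σ u * c b) with hΛ
  have cΛ : Continuous Λ := by fun_prop
  have Λ0 : Λ b0 = log 2 := by simp [hΛ, e0]
  have Λ1 : Λ (-1) ≤ l := by
    have a1 : Λ (-1) ≤ ∫ u in (0 : ℝ)..1, (s / 4 + C * (1 / 4 - c (-1) ^ 2) +
        C * (1 / 4 - aa (n * sin (Real.pi * u)) ^ 2)) :=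
      intervalIntegral.integral_mono_on zero_le_one
        ((by fun_prop : Continuous _).intervalIntegrable _ _)
        ((by fun_prop : Continuous _).intervalIntegrable _ _) fun u _ => by
          linarith [bd u _ (cbd (-1))]
    rw [intervalIntegral.integral_add (by simp)
      ((by fun_prop : Continuous _).intervalIntegrable _ _), intervalIntegral.integral_const_mul] at a1
    simp only [intervalIntegral.integral_const, sub_zero, smul_eq_mul, one_mul] at a1
    have a2 : ∫ y in (0 : ℝ)..1, (1 / 2 - R (-1) y) ≤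
        ∫ y in (0 : ℝ)..1, 2 * (1 / 4 - R (-1) y ^ 2) :=
      intervalIntegral.integral_mono_on zero_le_one
        ((by fun_prop : Continuous _).intervalIntegrable _ _)
        ((by fun_prop : Continuous _).intervalIntegrable _ _) fun y _ => by
          have := Rn y
          have := (abs_lt.1 (aa_lt (n * (cos (2 * Real.pi * y) - -1)))).2
          nlinarith
    rw [intervalIntegral.integral_sub (by simp) ((cRb _).intervalIntegrable _ _),
      intervalIntegral.integral_const_mul] at a2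
    simp only [intervalIntegral.integral_const, sub_zero, smul_eq_mul, one_mul] at a2
    have a3 := hC2 (-1) ⟨le_rfl, by norm_num⟩
    have a4 := abs_le.1 (cbd (-1))
    have a5 : 1 / 4 - c (-1) ^ 2 ≤ 2 * ∫ y in (0 : ℝ)..1, (1 / 4 - R (-1) y ^ 2) := by nlinarith
    nlinarith
  obtain ⟨b, hb, eb⟩ := intermediate_value_Icc hb0.1 cΛ.continuousOn ⟨Λ1, by rw [Λ0]; exact h2.le⟩
  have hb' : b ∈ Icc (-1 : ℝ) 1 := ⟨hb.1, hb.2.trans hb0.2⟩
  set S : ℝ → ℝ := fun t => ∫ u in (0 : ℝ)..1, ∫ y in (0 : ℝ)..1,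
    binEntropy (1 / 2 + σ u * (c b + t * (R b y - c b))) with hS
  have cb1 := cRb b
  have cS : Continuous S := by fun_prop
  have S0 : S 0 = l := by simpa [hS, hΛ] using eb
  have S1 : S 1 ≤ s := by
    have a1 : S 1 ≤ II fun z => (s / 4 + C * (1 / 4 - aa (n * sin (Real.pi * z.1)) ^ 2)) +
        C * (1 / 4 - R b z.2 ^ 2) :=
      II_mono (φ := fun z => binEntropy (1 / 2 + σ z.1 * (c b + 1 * (R b z.2 - c b))))
        (by fun_prop) (by fun_prop) fun u y _ => by
          simpa using bd u _ (aa_lt (n * (cos (2 * Real.pi * y) - b))).le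
    rw [II_add (by fun_prop) (by fun_prop),
      II_fst fun u => s / 4 + C * (1 / 4 - aa (n * sin (Real.pi * u)) ^ 2),
      intervalIntegral.integral_add (by simp)
      ((by fun_prop : Continuous _).intervalIntegrable _ _), intervalIntegral.integral_const_mul,
      II] at a1
    simp only [intervalIntegral.integral_const, sub_zero, smul_eq_mul, one_mul,
      intervalIntegral.integral_const_mul] at a1
    linarith [hC2 b hb']
  obtain ⟨t, ht, et⟩ := intermediate_value_Icc' zero_le_one cS.continuousOn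
    ⟨S1, by rw [S0]; exact h1.le⟩
  have t0 : t ≠ 0 := fun e => by rw [e, S0] at et; linarith
  obtain ⟨K, k1, k2⟩ := mk_sk (σ := σ) (R := fun y => c b + t * (R b y - c b)) σs
    (by simp only [hR]; fun_prop)
    (fun u => by simp only [hσ]; rw [mul_add, mul_one, sin_add_pi, mul_neg, aa_neg]; ring)
    (fun y => by simp only [hR]; rw [mul_add (2 * Real.pi), mul_one, cos_add_two_pi]) σb
    (fun y => by
      have a1 := abs_le.1 (cbd b)
      have a2 := abs_lt.1 (aa_lt (n * (cos (2 * Real.pi * y) - b)))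
      rw [abs_le]
      constructor <;> nlinarith [ht.1, ht.2])
    (by
      filter_upwards [sin_ae] with u hu e
      have : aa (n * sin (Real.pi * u)) = aa 0 := by rw [aa0]; simpa [hσ] using e
      exact mul_ne_zero n0.ne' hu (aa_mono.injective this))
    (fun x y z a1 a2 a3 e1 e2 => by
      have key : ∀ x y, c b + t * (R b x - c b) = c b + t * (R b y - c b) →
          cos (2 * Real.pi * x) = cos (2 * Real.pi * y) := fun x y e => by
        have b1 := mul_left_cancel₀ t0 (add_left_cancel e)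
        have b2 := aa_mono.injective (sub_left_injective b1)
        exact sub_left_injective (mul_left_cancel₀ n0.ne' b2)
      exact three a1 a2 a3 (key _ _ e1) (key _ _ e2))
  refine ⟨K, k1.trans ?_, k2.trans et⟩
  have : ∫ y in (0 : ℝ)..1, (c b + t * (R b y - c b)) = c b := by
    rw [intervalIntegral.integral_add (by simp)
      ((by fun_prop : Continuous _).intervalIntegrable _ _), intervalIntegral.integral_const_mul,
      intervalIntegral.integral_sub (cb1.intervalIntegrable _ _) (by simp)]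
    simp [hc]
  rw [this]; exact eb

theorem main {L μ : ℝ} (h1 : μ ≤ L) (h2 : 0 < L + μ) : Goal L (L + μ) := by
  have L0 : 0 < L := by linarith
  obtain ⟨m, hm⟩ := exists_nat_gt (L / log 2)
  have l2 : 0 < log 2 := log_pos one_lt_two
  have m0 : (0 : ℝ) < m := (div_pos L0 l2).trans hm
  have m1 : 0 < m := by exact_mod_cast m0
  have hL : L / m < log 2 := by rw [div_lt_iff₀ m0]; rwa [div_lt_iff₀' l2] at hm
  have hb : ∀ l, 0 < l → l ≤ L → ∃ B : Br, m * B.lam = l := fun l a b => by
    have : 0 < l / m := by positivity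
    obtain ⟨K, k, -⟩ := exists_sk (s := l / m / 2) (l := l / m) (by positivity) (by linarith)
      ((div_le_div_of_nonneg_right b m0.le).trans_lt hL)
    exact ⟨K.toBr, by rw [k]; field_simp⟩
  rcases lt_trichotomy μ 0 with h | h | h
  · obtain ⟨K, k1, k2⟩ := exists_sk (s := (L + μ) / m) (l := L / m) (by positivity)
      (div_lt_div_of_pos_right (by linarith) m0) hL
    have := K.goal' (by
      rw [k1, k2, ← mul_div_assoc]; exact div_le_div_of_nonneg_right (by linarith) m0.le) m1
    rwa [k1, k2, mul_div_cancel₀ _ m0.ne', mul_div_cancel₀ _ m0.ne'] at this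
  · obtain ⟨B, k⟩ := hb L L0 le_rfl
    have := B.goal_rot m1
    rwa [h, add_zero, ← k]
  · obtain ⟨B, k⟩ := hb L L0 le_rfl
    obtain ⟨B', k'⟩ := hb μ h h1
    have := B.goal_two B' (le_of_mul_le_mul_left (by rw [k, k']; exact h1) m0) m1
    rwa [mul_add, k, k'] at this

end Pool.Agent.H.Flex
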